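import Pool.Agent.Helper53.CX.Defs

/-!
# Generalized log Calabi-Yau pairs on projective varieties with an arbitrary function field

`K` is a field over `C` (the function field, of transcendence degree `n`).  Divisorial valuations
`DivVal K`, linear systems `LinSys K` and nef Cartier b-divisors `IsNefCartier` are taken from
project CX, where they are defined for every `K`.
-/

open scoped BigOperators

namespace Pool.Agent.Helper98.GX

open Pool.Agent.Helper53.CX (DivVal LinSys IsNefCartier)

/-- The Cartier b-divisor `N` is pseudo-effective: there is a free `A` such that for every `m >= 1`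
a positive multiple of `m N + A` is linearly equivalent to an effective b-divisor.  A nef Cartier
b-divisor `M` is numerically trivial if and only if `-M` is pseudo-effective. -/
def IsPseudoEffective {K : Type} [Field K] [Algebra ℂ K] (N : DivVal K → ℤ) : Prop :=
  ∃ A : LinSys K, ∀ m : ℕ, 1 ≤ m → ∃ (k : ℕ) (h : K), 1 ≤ k ∧ h ≠ 0 ∧
    ∀ v : DivVal K, 0 ≤ (k : ℤ) * ((m : ℤ) * N v + A.div v) + v.ord h

/-! ### The top form `dz_1/z_1 ... dz_n/z_n` -/

/-- Logarithmic coordinates on `K`: a transcendence basis `z_1, ..., z_n` of `K` over `C` and the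
derivations `θ_j = z_j d/dz_j` of `K` (they are determined by `z`). -/
structure LogCoord (K : Type) [Field K] [Algebra ℂ K] (n : ℕ) where
  z : Fin n → K
  θ : Fin n → Derivation ℂ K K
  basis : IsTranscendenceBasis ℂ z
  theta_z : ∀ i j, θ j (z i) = if i = j then z i else 0

/-- the Jacobian determinant `det (θ_j f_i)`, i.e. `df_1 ... df_n = jac f * dz_1/z_1 ... dz_n/z_n` -/
noncomputable def jac {K : Type} [Field K] [Algebra ℂ K] {n : ℕ} (L : LogCoord K n)
    (f : Fin n → K) : K :=
  Matrix.det (Matrix.of fun i j => L.θ j (f i))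

/-- `e` is the minimal order of the Jacobian determinants of `n` elements of the valuation ring:
the module of top differential forms of the valuation ring of `v` is generated by
`t^e dz_1/z_1 ... dz_n/z_n` (`t` a uniformizer). -/
def IsJacMin {K : Type} [Field K] [Algebra ℂ K] {n : ℕ} (L : LogCoord K n) (v : DivVal K)
    (e : ℤ) : Prop :=
  (∀ f : Fin n → K, (∀ i, 0 ≤ v.ord (f i)) → jac L f ≠ 0 → e ≤ v.ord (jac L f)) ∧
  ∃ f : Fin n → K, (∀ i, 0 ≤ v.ord (f i)) ∧ jac L f ≠ 0 ∧ v.ord (jac L f) = e

open Classical in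
/-- the order along `v` of the rational top form `ω = dz_1/z_1 ... dz_n/z_n`, i.e. the coefficient
of the canonical divisor `div ω` (on every model) along `v`. (The minimum exists for every `v`.) -/
noncomputable def ordOmega {K : Type} [Field K] [Algebra ℂ K] {n : ℕ} (L : LogCoord K n)
    (v : DivVal K) : ℤ :=
  if h : ∃ e : ℤ, IsJacMin L v e then - h.choose else 0

/-! ### Normal projective varieties and their prime divisors -/

/-- the coordinate ring `C[a/g0 : a ∈ G]` of the affine chart `g0 ≠ 0` -/
def chart {K : Type} [Field K] [Algebra ℂ K] (G : LinSys K) (g0 : K) : Subalgebra ℂ K :=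
  Algebra.adjoin ℂ {f : K | ∃ a ∈ G.gens, f = a / g0}

/-- A normal projective variety in projective space with function field `K`: the closure of the image
of the rational map given by the generators of `G`; its affine charts have fraction field `K`
and are integrally closed. -/
structure NormalProj (K : Type) [Field K] [Algebra ℂ K] where
  G : LinSys K
  frac : ∀ g0 ∈ G.gens, ∀ f : K, ∃ a ∈ chart G g0, ∃ b ∈ chart G g0, b ≠ 0 ∧ b * f = a
  normal : ∀ g0 ∈ G.gens, ∀ f : K, IsIntegral (chart G g0) f → f ∈ chart G g0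

/-- `v` is a prime divisor of the normal affine variety with coordinate ring `R`: the valuation ring
of `v` is the localisation of `R` at the centre of `v`. -/
def IsPrimeOf {K : Type} [Field K] [Algebra ℂ K] (R : Subalgebra ℂ K) (v : DivVal K) : Prop :=
  (∀ f ∈ R, 0 ≤ v.ord f) ∧
  ∀ f : K, f ≠ 0 → 0 ≤ v.ord f → ∃ a ∈ R, ∃ b ∈ R, b ≠ 0 ∧ v.ord b = 0 ∧ b * f = a

/-- The set of prime divisors of the normal projective variety `V`: the prime divisors of its
affine charts. -/
def NormalProj.primes {K : Type} [Field K] [Algebra ℂ K] (V : NormalProj K) :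
    Set (DivVal K) :=
  {v | ∃ g0 ∈ V.G.gens, IsPrimeOf (chart V.G g0) v}

/-! ### The class group -/

/-- the b-divisor of the `R`-rational function `∏ f^(g f)` -/
noncomputable def rdiv {K : Type} [Field K] [Algebra ℂ K] (g : K →₀ ℝ) (v : DivVal K) : ℝ :=
  g.sum fun f r => r * (v.ord f : ℝ)

/-- the principal `R`-divisors on a normal variety with set of prime divisors `S` -/
noncomputable def princ {K : Type} [Field K] [Algebra ℂ K] (S : Set (DivVal K)) :
    Submodule ℝ (S →₀ ℝ) where
  carrier := {D | ∃ g : K →₀ ℝ, ∀ v : S, D v = rdiv g v.1}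
  add_mem' := by
    rintro D E ⟨g, hg⟩ ⟨h, hh⟩
    refine ⟨g + h, fun v => ?_⟩
    rw [Finsupp.add_apply, hg, hh, rdiv, rdiv, rdiv]
    rw [Finsupp.sum_add_index']
    · intro a; simp
    · intro a b c; ring
  zero_mem' := ⟨0, fun v => by simp [rdiv]⟩
  smul_mem' := by
    rintro c D ⟨g, hg⟩
    refine ⟨c • g, fun v => ?_⟩
    rw [Finsupp.smul_apply, hg, rdiv, rdiv, Finsupp.sum_smul_index']
    · simp only [smul_eq_mul, Finsupp.mul_sum, mul_assoc]
    · intro a; simp

/-- the class group tensored with `R` of a normal variety with set of prime divisors `S` -/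
abbrev Cl {K : Type} [Field K] [Algebra ℂ K] (S : Set (DivVal K)) : Type := (S →₀ ℝ) ⧸ princ S

/-! ### Generalized log Calabi-Yau pairs -/

/-- the data of `(X,B,M)`: an `R`-rational function `g` with `K + B + M = div g`, and
`M = ∑ b_i M_i` -/
structure PairData (K : Type) [Field K] [Algebra ℂ K] (ι : Type) where
  g : K →₀ ℝ
  M : ι → DivVal K → ℤ
  b : ι → ℝ

/-- the coefficient along `v` of the crepant boundary `B` (on any model on which `v` is a prime
divisor), defined by `K + B + ∑ b_i M_i = div g`, where `K = div ω` -/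
noncomputable def PairData.B {K : Type} [Field K] [Algebra ℂ K] {ι : Type} [Fintype ι] {n : ℕ}
    (p : PairData K ι) (L : LogCoord K n) (v : DivVal K) : ℝ :=
  rdiv p.g v - (ordOmega L v : ℝ) - ∑ i, p.b i * (p.M i v : ℝ)

/-- `(X, B, M)` is a generalized log Calabi-Yau pair on the variety with set of prime divisors `S`
whose nef part is `∑ b_i M_i` with `b_i ≥ 0` and `M_i` nef Cartier and not numerically trivial. -/
structure IsGenLCY {K : Type} [Field K] [Algebra ℂ K] {ι : Type} [Fintype ι] {n : ℕ}
    (L : LogCoord K n) (S : Set (DivVal K)) (p : PairData K ι) : Prop where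
  b_nonneg : ∀ i, 0 ≤ p.b i
  nef : ∀ i, IsNefCartier (p.M i)
  nontrivial : ∀ i, ¬ IsPseudoEffective (fun v => - p.M i v)
  glc : ∀ v, p.B L v ≤ 1
  effective : ∀ v ∈ S, 0 ≤ p.B L v

/-! ### Divisors over the vertex of the total coordinate space -/

/-- A homogeneous divisorial valuation `E` of the Cox ring of `V` whose centre on the total coordinate
space is the vertex, given by its values `lam p = E(p) ≥ 1` at the (canonical sections of the) prime
divisors `p` of `V` and by its restriction `κ * w` to `K` (`κ = 0`: trivial on `K`).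
`growth`: `E(p)` grows at least linearly with the degree of `p`, i.e. every `p` is a component of a
hypersurface section of `V` of degree at most `c * lam p` (automatic if the Cox ring is finitely
generated). -/
structure VertexVal {K : Type} [Field K] [Algebra ℂ K] (V : NormalProj K) where
  lam : DivVal K → ℕ
  κ : ℕ
  w : DivVal K
  one_le : ∀ p ∈ V.primes, 1 ≤ lam p
  finite : ∀ f : K, f ≠ 0 → {p | p ∈ V.primes ∧ p.ord f ≠ 0}.Finite
  lin : ∀ f : K, f ≠ 0 → ∑ᶠ p ∈ V.primes, (lam p : ℤ) * p.ord f = (κ : ℤ) * w.ord f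
  growth : ∃ c : ℕ, ∀ p ∈ V.primes, ∃ φ : K, φ ≠ 0 ∧
    0 < p.ord φ + ((c * lam p : ℕ) : ℤ) * V.G.div p ∧
    ∀ q ∈ V.primes, 0 ≤ q.ord φ + ((c * lam p : ℕ) : ℤ) * V.G.div q

/-- The log discrepancy of `E` over the total coordinate space of `V`. -/
noncomputable def VertexVal.logDisc {K : Type} [Field K] [Algebra ℂ K] {V : NormalProj K}
    (E : VertexVal V) {n : ℕ} (L : LogCoord K n) : ℤ :=
  (E.κ : ℤ) * (ordOmega L E.w + 1) - ∑ᶠ p ∈ V.primes, (E.lam p : ℤ) * ordOmega L p

end Pool.Agent.Helper98.GX
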