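import Pool.Agent.Helper98.GX.Defs

/-!
# Toric varieties in terms of prime divisors, for an arbitrary function field
-/

open scoped BigOperators

namespace Pool.Agent.Helper98.GX

open Pool.Agent.Helper53.CX (DivVal LinSys IsNefCartier)

/-- the coordinate ring `C[y_1^±1, ..., y_n^±1]` of the torus with coordinates `y_1, ..., y_n` -/
def torusRing {K : Type} [Field K] [Algebra ℂ K] {n : ℕ} (y : Fin n → K) : Subalgebra ℂ K :=
  Algebra.adjoin ℂ (Set.range y ∪ Set.range (fun j => (y j)⁻¹))

/-- `v` is the monomial valuation with weights `a` in the coordinates `y` -/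
def IsToricIn {K : Type} [Field K] [Algebra ℂ K] {n : ℕ} (y : Fin n → K) (v : DivVal K)
    (a : Fin n → ℤ) : Prop :=
  ∀ p : MvPolynomial (Fin n) ℂ, p ≠ 0 →
    (∀ m ∈ p.support, v.ord (MvPolynomial.aeval y p) ≤ ∑ j, a j * (m j : ℤ)) ∧
    ∃ m ∈ p.support, v.ord (MvPolynomial.aeval y p) = ∑ j, a j * (m j : ℤ)

/-- The normal variety with function field `K` (of transcendence degree `n`) and set of prime divisors
`S` is toric for the torus with coordinates `y`: `y_1, ..., y_n` are algebraically independent and
generate `K`, the prime divisors of the torus are prime divisors of the variety, and all the other prime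
divisors are torus invariant, i.e. given by monomial valuations in `y`. -/
structure IsToricFor {K : Type} [Field K] [Algebra ℂ K] {n : ℕ} (S : Set (DivVal K))
    (y : Fin n → K) : Prop where
  indep : AlgebraicIndependent ℂ y
  full : IntermediateField.adjoin ℂ (Set.range y) = ⊤
  torus : ∀ v, IsPrimeOf (torusRing y) v → v ∈ S
  invariant : ∀ v ∈ S, IsPrimeOf (torusRing y) v ∨ ∃ a : Fin n → ℤ, IsToricIn y v a

/-- the variety is toric (for some torus of dimension `n`) -/
def IsToricVariety {K : Type} [Field K] [Algebra ℂ K] (n : ℕ) (S : Set (DivVal K)) : Prop :=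
  ∃ y : Fin n → K, IsToricFor S y

end Pool.Agent.Helper98.GX
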