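import Pool.Agent.Helper98.GX.St

/-!
Module STAR of project GX (MP_140278_ag): a section of `O(c)` in codimension one is a section
everywhere.
-/

set_option autoImplicit false

open scoped BigOperators nonZeroDivisors

namespace Pool.Agent.Helper98.GX

open Pool.Agent.Helper53.CX (DivVal LinSys IsNefCartier)

private theorem star_ord_one {K : Type} [Field K] [Algebra ℂ K] (v : DivVal K) :
    v.ord 1 = 0 := by
  have h := v.ord_mul 1 1 one_ne_zero one_ne_zero
  rw [one_mul] at h
  omega

private theorem star_ord_inv {K : Type} [Field K] [Algebra ℂ K] (v : DivVal K) (f : K)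
    (hf : f ≠ 0) : v.ord f⁻¹ = - v.ord f := by
  have h := v.ord_mul f f⁻¹ hf (inv_ne_zero hf)
  rw [mul_inv_cancel₀ hf, star_ord_one] at h
  omega

private theorem star_ord_pow {K : Type} [Field K] [Algebra ℂ K] (v : DivVal K) (f : K)
    (hf : f ≠ 0) (k : ℕ) : v.ord (f ^ k) = (k : ℤ) * v.ord f := by
  induction k with
  | zero => simp [star_ord_one]
  | succ k ih =>
    rw [pow_succ, v.ord_mul _ _ (pow_ne_zero k hf) hf, ih]
    push_cast
    ring

private theorem star_ord_const {K : Type} [Field K] [Algebra ℂ K] (v : DivVal K) (c : ℂ) :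
    v.ord (algebraMap ℂ K c) = 0 := by
  by_cases hc : c = 0
  · rw [hc, map_zero, v.ord_zero]
  · by_contra hne
    obtain ⟨d, hd⟩ := IsAlgClosed.exists_pow_nat_eq c
      (Nat.succ_pos (v.ord (algebraMap ℂ K c)).natAbs)
    have hd0 : d ≠ 0 := by
      rintro rfl
      rw [zero_pow (Nat.succ_ne_zero _)] at hd
      exact hc hd.symm
    have hd1 : algebraMap ℂ K d ≠ 0 := by
      intro h
      exact hd0 ((algebraMap ℂ K).injective (by rw [h, map_zero]))
    have h1 : v.ord (algebraMap ℂ K c)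
        = (((v.ord (algebraMap ℂ K c)).natAbs + 1 : ℕ) : ℤ) * v.ord (algebraMap ℂ K d) := by
      rw [← star_ord_pow v _ hd1, ← map_pow, ← Nat.succ_eq_add_one, hd]
    have h2 : ((((v.ord (algebraMap ℂ K c)).natAbs + 1 : ℕ) : ℤ))
        ∣ v.ord (algebraMap ℂ K c) := ⟨_, h1⟩
    have h3 := Int.natCast_dvd.1 h2
    have h4 := Nat.le_of_dvd (Int.natAbs_pos.2 hne) h3
    omega

private theorem star_adjoin {K : Type} [Field K] [Algebra ℂ K] (v : DivVal K) (s : Set K)
    (hs : ∀ x ∈ s, 0 ≤ v.ord x) : ∀ x ∈ Algebra.adjoin ℂ s, 0 ≤ v.ord x := by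
  intro x hx
  induction hx using Algebra.adjoin_induction with
  | mem x hx => exact hs x hx
  | algebraMap c => rw [star_ord_const]
  | add x y _ _ hx hy =>
    by_cases h1 : x = 0
    · rw [h1, zero_add]; exact hy
    by_cases h2 : y = 0
    · rw [h2, add_zero]; exact hx
    by_cases h3 : x + y = 0
    · rw [h3, v.ord_zero]
    exact le_trans (le_min hx hy) (v.ord_add x y h1 h2 h3)
  | mul x y _ _ hx hy =>
    by_cases h1 : x = 0
    · rw [h1, zero_mul, v.ord_zero]
    by_cases h2 : y = 0
    · rw [h2, mul_zero, v.ord_zero]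
    rw [v.ord_mul x y h1 h2]
    exact add_nonneg hx hy

/-- the valuation of a discrete valuation ring between `R` and its fraction field -/
private theorem star_val {K : Type} [Field K] [Algebra ℂ K] (R : Subalgebra ℂ K) (hfg : R.FG)
    (P : Ideal R) [P.IsPrime] (B : Type) [CommRing B] [IsDomain B] [IsDiscreteValuationRing B]
    [Algebra R B] [Algebra B K] [IsScalarTower R B K] [IsFractionRing B K]
    [IsLocalization.AtPrime B P] :
    ∃ q : DivVal K, IsPrimeOf R q ∧
      ∀ f : K, f ≠ 0 → 0 ≤ q.ord f → ∃ a b : R, b ∉ P ∧ (b : K) * f = a := by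
  classical
  let w := IsDiscreteValuationRing.maximalIdeal B
  let ν : Valuation K (WithZero (Multiplicative ℤ)) := w.valuation K
  have hν0 : ∀ f : K, f ≠ 0 → ν f ≠ 0 := fun f hf => (Valuation.ne_zero_iff ν).2 hf
  -- elements of nonnegative order are in B
  have hlift : ∀ f : K, f ≠ 0 → 0 ≤ - WithZero.log (ν f) → ∃ x : B, algebraMap B K x = f := by
    intro f hf h
    have h1 : ν f ≤ 1 := by
      rw [← WithZero.log_le_log (hν0 f hf) one_ne_zero, WithZero.log_one]
      omega
    obtain ⟨x, hx⟩ := IsDiscreteValuationRing.exists_lift_of_le_one h1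
    exact ⟨x, hx⟩
  have hB : ∀ x : B, x ≠ 0 → 0 ≤ - WithZero.log (ν (algebraMap B K x)) := by
    intro x hx
    have h1 : ν (algebraMap B K x) ≤ 1 := w.valuation_le_one x
    have hx' : algebraMap B K x ≠ 0 := by
      intro h
      exact hx (IsFractionRing.injective B K (by rw [h, map_zero]))
    have h2 := (WithZero.log_le_log (hν0 _ hx') one_ne_zero).2 h1
    rw [WithZero.log_one] at h2
    omega
  have hR : ∀ r : R, 0 ≤ - WithZero.log (ν (r : K)) := by
    intro r
    by_cases hr : r = 0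
    · rw [hr]
      simp
    · have h1 : (r : K) = algebraMap B K (algebraMap R B r) := by
        rw [← IsScalarTower.algebraMap_apply R B K]
        rfl
      rw [h1]
      apply hB
      intro h2
      apply hr
      rw [h2, map_zero] at h1
      exact Subtype.ext h1
  have hunit : ∀ b : R, b ∉ P → - WithZero.log (ν (b : K)) = 0 := by
    intro b hb
    have hu : IsUnit (algebraMap R B b) :=
      IsLocalization.map_units B (⟨b, hb⟩ : P.primeCompl)
    obtain ⟨u, hu⟩ := hu
    have h1 : (b : K) = algebraMap B K (algebraMap R B b) := by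
      rw [← IsScalarTower.algebraMap_apply R B K]
      rfl
    have hu0 : algebraMap B K ((u⁻¹ : Bˣ) : B) ≠ 0 := by
      intro h
      exact (u⁻¹).ne_zero (IsFractionRing.injective B K (by rw [h, map_zero]))
    have hb0 : (b : K) ≠ 0 := by
      rw [h1, ← hu]
      intro h
      exact u.ne_zero (IsFractionRing.injective B K (by rw [h, map_zero]))
    have h3 : (b : K) * algebraMap B K ((u⁻¹ : Bˣ) : B) = 1 := by
      rw [h1, ← hu, ← map_mul, Units.mul_inv, map_one]
    have h4 := congrArg (fun t => WithZero.log (ν t)) h3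
    simp only [map_mul, map_one] at h4
    rw [WithZero.log_mul (hν0 _ hb0) (hν0 _ hu0), WithZero.log_one] at h4
    have h5 := hR b
    have h6 := hB _ (u⁻¹).ne_zero
    omega
  -- local description
  have hloc : ∀ f : K, f ≠ 0 → 0 ≤ - WithZero.log (ν f) → ∃ a b : R, b ∉ P ∧ (b : K) * f = a := by
    intro f hf h
    obtain ⟨x, hx⟩ := hlift f hf h
    obtain ⟨⟨a, s⟩, has⟩ := IsLocalization.surj P.primeCompl x
    refine ⟨a, s, s.2, ?_⟩
    have h2 := congrArg (algebraMap B K) has
    rw [map_mul, hx, ← IsScalarTower.algebraMap_apply R B K,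
      ← IsScalarTower.algebraMap_apply R B K] at h2
    rw [mul_comm]
    exact h2
  have hprime : ∀ f : K, f ≠ 0 → 0 ≤ - WithZero.log (ν f) →
      ∃ a ∈ R, ∃ b ∈ R, b ≠ 0 ∧ - WithZero.log (ν b) = 0 ∧ b * f = a := by
    intro f hf h
    obtain ⟨a, b, hb, hab⟩ := hloc f hf h
    refine ⟨a, a.2, b, b.2, ?_, hunit b hb, hab⟩
    intro h0
    apply hb
    have : b = 0 := Subtype.ext h0
    rw [this]
    exact P.zero_mem
  refine ⟨{ ord := fun f => - WithZero.log (ν f)
            ord_zero := by simp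
            ord_mul := ?_
            ord_add := ?_
            exists_one := ?_
            exists_model := ?_ }, ⟨?_, ?_⟩, ?_⟩
  · intro f g hf hg
    rw [map_mul, WithZero.log_mul (hν0 f hf) (hν0 g hg)]
    ring
  · intro f g hf hg hfg
    have h1 := ν.map_add f g
    rcases le_max_iff.1 h1 with h2 | h2
    · have h3 := (WithZero.log_le_log (hν0 _ hfg) (hν0 f hf)).2 h2
      omega
    · have h3 := (WithZero.log_le_log (hν0 _ hfg) (hν0 g hg)).2 h2
      omega
  · obtain ⟨π, hπ⟩ := w.valuation_exists_uniformizer K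
    refine ⟨π, ?_, ?_⟩
    · intro h
      rw [h, map_zero] at hπ
      exact WithZero.exp_ne_zero hπ.symm
    · have : ν π = WithZero.exp (-1 : ℤ) := hπ
      rw [this, WithZero.log_exp]
      norm_num
  · refine ⟨R, hfg, fun f hf _ => hR ⟨f, hf⟩, ?_⟩
    intro f hf h
    exact hprime f hf h
  · intro f hf
    exact hR ⟨f, hf⟩
  · intro f hf h
    exact hprime f hf h
  · intro f hf h
    exact hloc f hf h

/-- a normal noetherian domain is the intersection of its localisations at primes whose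
localisation is a discrete valuation ring -/
private theorem star_key {K : Type} [Field K] [Algebra ℂ K] (R : Subalgebra ℂ K) (hfg : R.FG)
    (hfrac : ∀ f : K, ∃ a ∈ R, ∃ b ∈ R, b ≠ 0 ∧ b * f = a)
    (hnorm : ∀ f : K, IsIntegral R f → f ∈ R) (φ : K) (hφ : φ ∉ R) :
    ∃ q : DivVal K, IsPrimeOf R q ∧ q.ord φ < 0 := by
  classical
  have : Algebra.FiniteType ℂ R := R.fg_iff_finiteType.1 hfg
  have : IsNoetherianRing R := Algebra.FiniteType.isNoetherianRing ℂ R
  have hFR : IsFractionRing R K := by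
    refine IsFractionRing.of_field R K (fun f => ?_)
    obtain ⟨a, ha, b, hb, hb0, hab⟩ := hfrac f
    refine ⟨⟨a, ha⟩, ⟨b, hb⟩, ?_⟩
    change f = a / b
    rw [eq_div_iff hb0, mul_comm]
    exact hab
  have : IsIntegrallyClosed R := by
    rw [isIntegrallyClosed_iff K]
    intro x hx
    exact ⟨⟨x, hnorm x hx⟩, rfl⟩
  -- the quotient module K / R
  let N : Submodule R K := LinearMap.range (Algebra.linearMap R K)
  have hN : ∀ f : K, f ∈ N ↔ f ∈ R := by
    intro f
    constructor
    · rintro ⟨r, rfl⟩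
      exact r.2
    · intro hf
      exact ⟨⟨f, hf⟩, rfl⟩
  have hx : (Submodule.Quotient.mk φ : K ⧸ N) ≠ 0 := by
    rw [Ne, Submodule.Quotient.mk_eq_zero, hN]
    exact hφ
  obtain ⟨P, hP, hle⟩ := exists_le_isAssociatedPrime_of_isNoetherianRing R
    (Submodule.Quotient.mk φ : K ⧸ N) hx
  rw [isAssociatedPrime_iff] at hP
  obtain ⟨hPp, y, hy⟩ := hP
  obtain ⟨ψ, rfl⟩ := Submodule.Quotient.mk_surjective N y
  have hann : ∀ (f : K) (r : R), r ∈ (⊥ : Submodule R (K ⧸ N)).colon
      {(Submodule.Quotient.mk f : K ⧸ N)} ↔ (r : K) * f ∈ R := by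
    intro f r
    rw [Submodule.mem_colon_singleton, Submodule.mem_bot, ← Submodule.Quotient.mk_smul,
      Submodule.Quotient.mk_eq_zero, hN]
    exact Iff.rfl
  have hPmem : ∀ r : R, r ∈ P ↔ (r : K) * ψ ∈ R := by
    intro r
    rw [hy]
    exact hann ψ r
  have hφP : ∀ r : R, (r : K) * φ ∈ R → r ∈ P := by
    intro r hr
    exact hle ((hann φ r).2 hr)
  -- the local ring
  have hS : P.primeCompl ≤ R⁰ := P.primeCompl_le_nonZeroDivisors
  let B : Subalgebra R K := Localization.subalgebra.ofField K P.primeCompl hS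
  have : IsLocalization.AtPrime B P := Localization.subalgebra.isLocalization_ofField K P.primeCompl hS
  have : IsLocalRing B := IsLocalization.AtPrime.isLocalRing B P
  have : IsNoetherianRing B := IsLocalization.isNoetherianRing P.primeCompl B inferInstance
  have : IsIntegrallyClosed B := isIntegrallyClosed_of_isLocalization B P.primeCompl hS
  have hBint : ∀ f : K, IsIntegral B f → f ∈ B := by
    intro f hf
    obtain ⟨x, hx⟩ := (isIntegrallyClosed_iff K).1 (inferInstance : IsIntegrallyClosed B) hf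
    rw [← hx]
    exact x.2
  -- membership in B and in the maximal ideal
  have hBmem : ∀ f : K, f ∈ B → ∃ a s : R, s ∉ P ∧ (s : K) * f = a := by
    intro f hf
    obtain ⟨⟨a, s⟩, has⟩ := IsLocalization.surj P.primeCompl (⟨f, hf⟩ : B)
    refine ⟨a, s, s.2, ?_⟩
    have h2 := congrArg (algebraMap B K) has
    rw [map_mul, mul_comm] at h2
    exact h2
  have hBmem' : ∀ (f : K) (a s : R), s ∉ P → (s : K) * f = a → f ∈ B := by
    intro f a s hs hsf
    have hs0 : (s : K) ≠ 0 := by
      intro h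
      apply hs
      have : s = 0 := Subtype.ext h
      rw [this]
      exact P.zero_mem
    have h1 : f = (algebraMap R K a) * (algebraMap R K s)⁻¹ := by
      change f = (a : K) * (s : K)⁻¹
      rw [← hsf]
      field_simp
    rw [h1]
    exact ⟨a, s, hs, rfl⟩
  have hψB : ψ ∉ B := by
    intro h
    obtain ⟨a, s, hs, hsa⟩ := hBmem ψ h
    exact hs ((hPmem s).2 (by rw [hsa]; exact a.2))
  have hmax : ∀ x : B, x ∈ IsLocalRing.maximalIdeal B → ∃ a s : R, a ∈ P ∧ s ∉ P ∧
      (s : K) * (x : K) = a := by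
    intro x hx
    obtain ⟨a, s, hs, hsa⟩ := hBmem x x.2
    refine ⟨a, s, ?_, hs, hsa⟩
    by_contra ha
    have hu : IsUnit (algebraMap R B a) := IsLocalization.map_units B (⟨a, ha⟩ : P.primeCompl)
    have h1 : algebraMap R B a = algebraMap R B s * x := Subtype.ext hsa.symm
    rw [h1] at hu
    exact (IsLocalRing.mem_maximalIdeal x).1 hx (isUnit_of_mul_isUnit_right hu)
  have hmul : ∀ x : B, x ∈ IsLocalRing.maximalIdeal B → ψ * (x : K) ∈ B := by
    intro x hx
    obtain ⟨a, s, ha, hs, hsa⟩ := hmax x hx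
    have h1 := (hPmem a).1 ha
    refine hBmem' _ ⟨(a : K) * ψ, h1⟩ s hs ?_
    change (s : K) * (ψ * (x : K)) = (a : K) * ψ
    rw [← hsa]
    ring
  have hne : IsLocalRing.maximalIdeal B ≠ ⊥ := by
    obtain ⟨a, ha, b, hb, hb0, hab⟩ := hfrac ψ
    have hbP : (⟨b, hb⟩ : R) ∈ P := (hPmem _).2 (by change b * ψ ∈ R; rw [hab]; exact ha)
    intro h
    have h1 : algebraMap R B ⟨b, hb⟩ ∈ IsLocalRing.maximalIdeal B := by
      rw [IsLocalRing.mem_maximalIdeal, mem_nonunits_iff]
      intro hu
      exact ((IsLocalization.AtPrime.isUnit_to_map_iff B P _).1 hu) hbP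
    rw [h, Ideal.mem_bot] at h1
    apply hb0
    exact congrArg (fun t : B => (t : K)) h1
  -- some element of the maximal ideal is sent to a unit
  have hexu : ∃ x : B, x ∈ IsLocalRing.maximalIdeal B ∧ ∃ u : B, IsUnit u ∧
      (u : K) = ψ * (x : K) := by
    by_contra hcon
    push Not at hcon
    apply hψB
    apply hBint
    let M : Submodule B K := Submodule.map (Algebra.linearMap B K) (IsLocalRing.maximalIdeal B)
    refine isIntegral_of_smul_mem_submodule M ?_ ?_ ψ ?_
    · rw [Submodule.ne_bot_iff]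
      obtain ⟨x, hx, hx0⟩ := Submodule.exists_mem_ne_zero_of_ne_bot hne
      refine ⟨_, ⟨x, hx, rfl⟩, ?_⟩
      intro h
      exact hx0 (Subtype.ext h)
    · exact Submodule.FG.map _ (IsNoetherian.noetherian _)
    · rintro _ ⟨x, hx, rfl⟩
      refine ⟨⟨ψ * (x : K), hmul x hx⟩, ?_, rfl⟩
      change (⟨ψ * (x : K), hmul x hx⟩ : B) ∈ IsLocalRing.maximalIdeal B
      rw [IsLocalRing.mem_maximalIdeal, mem_nonunits_iff]
      intro hu
      exact hcon x hx _ hu rfl
  have hprinc : (IsLocalRing.maximalIdeal B).IsPrincipal := by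
    obtain ⟨x, hx, u, hu, hux⟩ := hexu
    refine ⟨⟨x, ?_⟩⟩
    apply le_antisymm
    · intro y hy
      rw [Ideal.submodule_span_eq, Ideal.mem_span_singleton]
      obtain ⟨w, hw⟩ := hu
      refine ⟨⟨ψ * (y : K), hmul y hy⟩ * ((w⁻¹ : Bˣ) : B), ?_⟩
      have h1 : (u : K) * (((w⁻¹ : Bˣ) : B) : K) = 1 := by
        have h2 : (w : B) * ((w⁻¹ : Bˣ) : B) = 1 := Units.mul_inv w
        rw [hw] at h2
        exact congrArg (fun t : B => (t : K)) h2
      apply Subtype.ext
      change (y : K) = (x : K) * (ψ * (y : K) * (((w⁻¹ : Bˣ) : B) : K))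
      calc (y : K) = (y : K) * ((u : K) * (((w⁻¹ : Bˣ) : B) : K)) := by rw [h1, mul_one]
        _ = _ := by rw [hux]; ring
    · rw [Ideal.submodule_span_eq, Ideal.span_singleton_le_iff_mem]
      exact hx
  have : IsPrincipalIdealRing B :=
    ((tfae_of_isNoetherianRing_of_isLocalRing_of_isDomain B).out 4 0).1 hprinc
  have : IsDiscreteValuationRing B := { not_a_field' := hne }
  have : IsScalarTower R B K := IsScalarTower.of_algebraMap_eq (fun _ => rfl)
  have : IsFractionRing B K := Localization.subalgebra.isFractionRing_ofField K P.primeCompl hS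
  have hval : ∃ q : DivVal K, IsPrimeOf R q ∧
      ∀ f : K, f ≠ 0 → 0 ≤ q.ord f → ∃ a b : R, b ∉ P ∧ (b : K) * f = a :=
    star_val (K := K) R hfg P B
  obtain ⟨q, hq1, hq2⟩ := hval
  refine ⟨q, hq1, ?_⟩
  by_contra hcon
  have hφ0 : φ ≠ 0 := by
    rintro rfl
    exact hφ R.zero_mem
  obtain ⟨a, b, hb, hab⟩ := hq2 φ hφ0 (not_lt.1 hcon)
  exact hb (hφP b (by rw [hab]; exact a.2))

theorem hSTAR : StSTAR := by
  intro K _ _ V c f hf hq v
  classical
  obtain ⟨g0, hg0, hg0v⟩ := Finset.exists_mem_eq_sup' V.G.nonempty (fun g => - v.ord g)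
  have hg00 : g0 ≠ 0 := V.G.ne_zero g0 hg0
  have hdiv : V.G.div v = - v.ord g0 := hg0v
  have hmin : ∀ (w : DivVal K), (∀ x ∈ chart V.G g0, 0 ≤ w.ord x) → V.G.div w = - w.ord g0 := by
    intro w hw
    apply le_antisymm
    · apply Finset.sup'_le
      intro a ha
      have ha0 := V.G.ne_zero a ha
      have h1 := hw (a / g0) (Algebra.subset_adjoin ⟨a, ha, rfl⟩)
      rw [div_eq_mul_inv, w.ord_mul _ _ ha0 (inv_ne_zero hg00), star_ord_inv w g0 hg00] at h1
      omega
    · exact Finset.le_sup' (fun g => - w.ord g) hg0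
  have hφv : ∀ w : DivVal K, w.ord (f / g0 ^ c) = w.ord f - c * w.ord g0 := by
    intro w
    rw [div_eq_mul_inv, w.ord_mul _ _ hf (inv_ne_zero (pow_ne_zero c hg00)),
      star_ord_inv w _ (pow_ne_zero c hg00), star_ord_pow w g0 hg00]
    ring
  have hgoal : 0 ≤ v.ord (f / g0 ^ c) := by
    have hmem : f / g0 ^ c ∈ chart V.G g0 := by
      by_contra hcon
      have hfg : (chart V.G g0).FG := by
        refine ⟨V.G.gens.image (fun a => a / g0), ?_⟩
        unfold chart
        congr 1
        ext x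
        simp only [Finset.coe_image, Set.mem_image, Finset.mem_coe, Set.mem_ofPred_eq]
        constructor
        · rintro ⟨a, ha, rfl⟩
          exact ⟨a, ha, rfl⟩
        · rintro ⟨a, ha, rfl⟩
          exact ⟨a, ha, rfl⟩
      obtain ⟨q, hq1, hq2⟩ := star_key (chart V.G g0) hfg (V.frac g0 hg0) (V.normal g0 hg0)
        (f / g0 ^ c) hcon
      have h1 := hq q ⟨g0, hg0, hq1⟩
      rw [hmin q hq1.1] at h1
      rw [hφv q] at hq2
      linarith
    apply star_adjoin v _ _ _ hmem
    rintro x ⟨a, ha, rfl⟩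
    have ha0 := V.G.ne_zero a ha
    rw [div_eq_mul_inv, v.ord_mul _ _ ha0 (inv_ne_zero hg00), star_ord_inv v g0 hg00]
    have h1 : - v.ord a ≤ V.G.div v := Finset.le_sup' (fun g => - v.ord g) ha
    omega
  rw [hφv v] at hgoal
  rw [hdiv]
  linarith

end Pool.Agent.Helper98.GX
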