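import Pool.Agent.Helper98.GX.Defs

/-!
# Project GX (MP_140278_ag): statements with complete proofs

THEOREM.  Let `V0` be a normal projective variety with function field `K`, `E = (lam, κ, w)` a
divisor over the vertex of its total coordinate space.  Let `(X,B,M)` be a generalized log
Calabi-Yau pair on a normal projective variety `X` with function field `K` such that every prime
divisor of `V0` is a prime divisor of `X` or a glc place.  Then
`∑ a_i + ∑ b_j + rank Cl(V0) ≤ A(E) + rank Cl(X)`.  Moreover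
`A(E) ≤ κ (ord_w ω + 1) + ∑ lam p` over the primes `p` of `V0` at which some `z_i` is not a unit.

Notation `H v = V.G.div v = max (- v(g))` over the generators `g`; `K` is any field over `C`.
All modules are independent: every module proves `theorem hX : StDep1 → ... → StX`.
-/

open scoped BigOperators

namespace Pool.Agent.Helper98.GX

open Pool.Agent.Helper53.CX (DivVal LinSys IsNefCartier)

/-- MODULE STAR.  A section of `O(c)` in codimension one is a section everywhere.
Proof.  Let `v` be given; choose a generator `g0` with `H v = - v(g0)` (the maximum is attained) and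
put `R = chart V.G g0`; `v(a/g0) ≥ 0` for all generators `a`, so `v ≥ 0` on `R` (adjoin induction,
with `v 0 = 0`, `v c = 0` for constants `c ≠ 0`: `c` and `c⁻¹`... `v c ≥ 0` follows from
`2 ≥`-free argument: `c = d^k` for every `k`, so `v c` is divisible by all `k`).
Put `φ = f / g0^c`, so `v φ = v f + c H v`.
CLAIM: `φ ∈ R` (then `v φ ≥ 0`, done).  Suppose `φ ∉ R`.  `R` is a finitely generated `C`-algebra
(generated by the finite set `a/g0`), hence noetherian.  Consider the `R`-module `K / R` and the nonzero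
class of `φ`: by `exists_le_isAssociatedPrime_of_isNoetherianRing` there is a prime `P = ann(ψ)`, `ψ ∈ K`,
`ψ ∉ R` (so `r ∈ P ↔ r ψ ∈ R`), containing `ann(φ) = {r : r φ ∈ R}`.  `P ≠ 0` by `V.frac`
(`ψ = a/b`, `b ∈ P`).  Let `O = {x ∈ K : ∃ b ∈ R \ P, b x ∈ R}` be the local ring of `R` at `P`, with
maximal ideal `m = P O`.  `ψ m ⊆ O`.  If `ψ m ⊆ m` then `ψ` is integral over `O` (`m` is finitely generated
and faithful: `isIntegral_of_smul_mem_submodule`), so for some `b ∈ R \ P` (common denominator of the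
coefficients) `b ψ` is integral over `R`, hence `b ψ ∈ R` by `V.normal`, so `b ∈ P`, contradiction.
Hence `ψ m = O` and `m = ψ⁻¹ O` is principal: `O` is a discrete valuation ring
(`tfae_of_isNoetherianRing_of_isLocalRing_of_isDomain` or
`IsDiscreteValuationRing.TFAE`; e.g. with `O = Localization.AtPrime P`, fraction field `K`).  Let `q` be its
normalised valuation of `K` (e.g. from `IsDedekindDomain.HeightOneSpectrum.valuation`, or from
`IsDiscreteValuationRing.addVal`): it is a `DivVal K` (model `R`), `q ≥ 0` on `R`, and the valuation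
ring of `q` is `O`, so `IsPrimeOf R q` and `q ∈ V.primes`.  For `a` a generator `q(a/g0) ≥ 0`, so
`H q = - q(g0)` and `q φ = q f + c H q ≥ 0` by hypothesis, so `φ ∈ O` (`φ ≠ 0`): there is `b ∈ R \ P` with
`b φ ∈ R`, so `b ∈ ann(φ) ⊆ P`, contradiction. -/
def StSTAR : Prop := ∀ (K : Type) [Field K] [Algebra ℂ K] (V : NormalProj K) (c : ℕ) (f : K),
  f ≠ 0 → (∀ q ∈ V.primes, 0 ≤ q.ord f + (c : ℤ) * V.G.div q) →
  ∀ v : DivVal K, 0 ≤ v.ord f + (c : ℤ) * V.G.div v

/-- MODULE LAM.  `E(M)` is a positive integer for a nef Cartier `M` which is not numerically trivial.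
Proof.  All sums `∑ᶠ` are over `p ∈ V.primes`.  For a linear system `F` the set of `p ∈ V.primes` with
`F.div p ≠ 0` is finite (`F.div p ≠ 0` implies `p.ord f ≠ 0` for some generator `f`; E.finite).  Let
`A` be the witness of nefness.  `m = 1`: `N (M p + A.div p) = F.div p`, so `M` has finite support on
`V.primes` (first claim).  Put `ℓ = ∑ᶠ lam p * M p - κ M w` and `a0 = ∑ᶠ lam p * A.div p - κ A.div w`
(integers).  Suppose `ℓ ≤ 0`; we show that `-M` is pseudo-effective.
Let `m ≥ 1` with `N (m M + A.div) = F.div`.  Choose `f ∈ F.gens` with `w f = - F.div w`.  Put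
`D p = p.ord f + F.div p ≥ 0`.  By E.lin
`∑ᶠ lam p * D p = κ w(f) + N (m (ℓ + κ M w) + a0 + κ A.div w) = κ (w f + F.div w) + N (m ℓ + a0)
= N (m ℓ + a0)`.  It is `≥ 0`; with `m = 1` we see `a0 ≥ 0`.  Call it `s`; `0 ≤ s ≤ N a0`.
Let `c`, `φ_p` be as in E.growth and `Φ = ∏ φ_p^(D p)` over the finite set of `p ∈ V.primes` with
`D p ≠ 0`.  For `q ∈ V.primes`: `q.ord Φ + c s H q = ∑ᶠ D p (q.ord φ_p + c lam p H q) ≥ D q` (all terms are
`≥ 0` and the term `p = q` is `≥ D q`).  Fix a generator `g1` of `V.G`: `q.ord g1 + H q ≥ 0`, so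
`Φ' = Φ * g1^(c (N a0 - s))` satisfies `q.ord Φ' + c N a0 H q ≥ D q`.  Put `h = Φ'/f`:
`q.ord h + c N a0 H q ≥ F.div q`.  For every `f' ∈ F.gens`: `q.ord (h f') + c N a0 H q ≥ 0` for all
`q ∈ V.primes`, hence for all `q : DivVal K` by hSTAR.  For given `v` choose `f'` with `v f' = - F.div v`:
`v h + c N a0 H v ≥ F.div v = N (m M v + A.div v)`.  Fix `a1 ∈ A.gens`: `- A.div v ≤ v a1`.  So
`0 ≤ v(h a1^N) + N (m (- M v) + c a0 H v)`; the linear system `A'` with generators `g^(c a0)`, `g ∈ V.G.gens`,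
has `A'.div v = c a0 H v` (here `c a0` is a natural number).  `A'` does not depend on `m`, so `-M` is
pseudo-effective with `k = N` and the function `h a1^N`. -/
def StLAM : Prop := ∀ (K : Type) [Field K] [Algebra ℂ K] (V : NormalProj K) (E : VertexVal V)
  (M : DivVal K → ℤ), IsNefCartier M → ¬ IsPseudoEffective (fun v => - M v) →
  {p | p ∈ V.primes ∧ M p ≠ 0}.Finite ∧
  1 ≤ ∑ᶠ p ∈ V.primes, (E.lam p : ℤ) * M p - (E.κ : ℤ) * M E.w

/-- MODULE CST.  An `R`-rational function without zeros and poles in codimension one on a normal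
projective variety is trivial.
Proof.  Let `B` be a basis of `ℝ` over `ℚ` (`Module.Free.chooseBasis` or `Basis.ofVectorSpace`).  For
`q ∈ V.primes`: `0 = rdiv g q = ∑ g(f) q(f)`; apply the `β`-coordinate: `∑_f (q f) * coord_β (g f) = 0` for
every `β`.  Fix `β`; let `N ≥ 1` be a common denominator of the rationals `coord_β (g f)`, `f` in the
support, `z_f = N coord_β (g f)` integers, `Φ = ∏ f^(z_f)` over the nonzero `f` of the support (`q.ord 0 = 0`,
so `f = 0` does not matter).  `v.ord Φ = ∑ z_f v(f)` for every `v`.  So `q.ord Φ = 0` for `q ∈ V.primes`;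
hSTAR with `c = 0` for `Φ` and `Φ⁻¹` gives `v.ord Φ = 0` for every `v`.  So `∑_f (v f) coord_β (g f) = 0` for
all `β`, i.e. `rdiv g v = 0`. -/
def StCST : Prop := ∀ (K : Type) [Field K] [Algebra ℂ K] (V : NormalProj K) (g : K →₀ ℝ),
  (∀ q ∈ V.primes, rdiv g q = 0) → ∀ v : DivVal K, rdiv g v = 0

/-- MODULE RNK.  Comparison of the ranks of two class groups.
Proof.  Let `S0 = V0.primes`, `S = V.primes`.  Let `D_1, ..., D_ρ0 ∈ (S0 →₀ ℝ)` represent a basis of
`Cl S0`.  Consider `U = ℝ^ρ0 × ℝ^T` and the linear map `β : U → Cl S` which sends `(c,d)` to the class of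
the divisor on `S` with coefficient `(∑ c_i D_i)(v)` at `v ∈ S ∩ S0` and `d_t` at `t ∈ T` (`T` is disjoint
from `S0`) and `0` elsewhere.  For `(c,d)` in the kernel there is `g` with `rdiv g v` equal to this
coefficient for all `v ∈ S`; if `g'` is another one then `rdiv (g - g') = 0` on `S`, hence everywhere (hCST for
`V`).  So `γ(c,d) = (rdiv g q - (∑ c_i D_i)(q))_{q ∈ Q ∩ S0}` is a well defined linear map from the kernel
to `ℝ^(Q ∩ S0)`.  It is injective: if `γ = 0` then `rdiv g = ∑ c_i D_i` on `S0 ∩ S` and on `S0 \ S ⊆ Q`, so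
`∑ c_i D_i` is principal on `S0`, so `c = 0`; then `rdiv g = 0` on `S0`, hence everywhere (hCST for `V0`), so
`d_t = rdiv g t = 0`.  Hence `ρ0 + |T| = dim U = dim ker β + dim im β ≤ |Q| + ρ`.
(Alternatively: compare both with `Cl (S ∪ S0)`: its rank is `≥ ρ0 + |T|`, and `Cl (S ∪ S0) → Cl S` is
surjective with kernel spanned by the classes of the `q ∈ Q`.) -/
def StRNK : Prop := ∀ (K : Type) [Field K] [Algebra ℂ K] (V0 V : NormalProj K)
  (T Q : Finset (DivVal K)) (ρ0 ρ : ℕ),
  (∀ t ∈ T, t ∈ V.primes ∧ t ∉ V0.primes) → (∀ q ∈ V0.primes, q ∉ V.primes → q ∈ Q) →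
  Module.rank ℝ (Cl V0.primes) = (ρ0 : Cardinal) → Module.rank ℝ (Cl V.primes) = (ρ : Cardinal) →
  T.card + ρ0 ≤ ρ + Q.card

/-- MODULE JLB.  The form `ω` has at most a simple pole along `v`, and no pole if all `z_i` are units.
Proof.  If no minimum exists `ordOmega = 0`.  Otherwise `ordOmega = - e` with `e ≤ v(jac f)` for all `f` with
`v(f_i) ≥ 0`, `jac f ≠ 0`.  (a) all `v(z_i) = 0`: `f = z`, `jac z = ∏ z_i` (diagonal matrix) has order `0`, so
`e ≤ 0`.  (b) in general let `v(t) = 1`, `t ≠ 0` (exists_one), `a_i = v(z_i)`, `ε_i = z_i / t^(a_i)`, `v(ε_i) = 0`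
(zpow; `z_i ≠ 0` as `z` is a transcendence basis).  For `f` with all `f_i ≠ 0` let
`lj f = det (θ_j f_i / f_i)`, so `jac f = lj f * ∏ f_i`.  `θ_j z_i / z_i = a_i τ_j + e_ij` with
`τ_j = θ_j t / t`, `e_ij = θ_j ε_i / ε_i` (logarithmic derivative).  Multilinearity of the determinant in the
rows: `1 = det (a_i τ + e_i) = det e + ∑_i a_i det (e with row i replaced by τ)` (two rows equal to `τ` give
`0`), i.e. `1 = lj ε + ∑_i a_i lj (ε with ε_i replaced by t)`.  Suppose `e ≥ 2`.  Then `jac ε` is `0` or has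
order `≥ 2`, so `lj ε` is `0` or has order `≥ 2`; `jac (ε, i → t)` is `0` or has order `≥ 2`, so
`lj (ε, i → t)` is `0` or has order `≥ 1`.  So `1` is a sum of elements which are `0` or of positive order,
contradiction.  Hence `e ≤ 1`.
(Instead of expanding one can also prove by induction on the number of rows the statement for the
determinants of matrices whose rows are `a_i τ + e_i` or `e_i`.) -/
def StJLB : Prop := ∀ (K : Type) [Field K] [Algebra ℂ K] (n : ℕ) (L : LogCoord K n) (v : DivVal K),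
  -1 ≤ ordOmega L v ∧ ((∀ i, v.ord (L.z i) = 0) → 0 ≤ ordOmega L v)

/-- MODULE JEX.  The minimum in `IsJacMin` exists (sanity of the definition of `ordOmega`).
Proof.  (1) a derivation `θ` of `K` lowers the order along `v` by a bounded amount: there is `C` with
`v f - C ≤ v (θ f)` whenever `f ≠ 0`, `θ f ≠ 0` (same proof as StDer in
Pool/Agent/Helper53/CX/M_Der.lean: `R` = the model of `v`, generated by `r_1..r_s`; `C0 ≥ 0` with
`ord (θ r_i) ≥ -C0`; `θ` maps `R` to elements which are `0` or of order `≥ -C0` by adjoin induction;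
quotients; powers of a uniformizer).  (2) the orders of the Jacobians (nonzero) of elements of the
valuation ring are bounded below (Leibniz formula); the set is nonempty: `f_i = z_i` or `z_i⁻¹`,
whichever has order `≥ 0`; `jac f = ± ∏ f_i ≠ 0`.  So the minimum exists
(`Int.exists_least_of_bdd`). Compare Pool/Agent/Helper53/CX/M_JacEx.lean. -/
def StJEX : Prop := ∀ (K : Type) [Field K] [Algebra ℂ K] (n : ℕ) (L : LogCoord K n) (v : DivVal K),
  ∃ e : ℤ, IsJacMin L v e

/-- MODULE SUM.  The main inequality on `V0`.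
Proof.  Write `B v = p.B L v`, sums over `q ∈ V0.primes`.  Let `F` be the finite set of all
`q ∈ V0.primes` with `q(f) ≠ 0` for some nonzero `f` in the support of `p.g`, or `p.M i q ≠ 0` for some `i`
(hLAM, first part), or `q(z_j) ≠ 0` for some `j` (E.finite).  For `q ∈ V0.primes \ F`:
`rdiv g q = 0`, `M_i q = 0`, `ordOmega q ≥ 0` by hJLB, so `B q = - ordOmega q ≤ 0`; by hypothesis `B q ≥ 0`
or `B q = 1`, so `B q = 0` and `ordOmega q = 0`.  Hence `∑ᶠ lam q * ordOmega q = ∑_F lam q * ordOmega q`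
(support in `F`), `∑_F lam q * M_i q = ∑ᶠ lam q * M_i q ≥ 1 + κ M_i w` (hLAM) and
`∑_F lam q * rdiv g q = κ rdiv g w` (E.lin for every nonzero `f` in the support of `g`; both sides are
linear in `g`, and `f = 0` contributes `0`).  So
`∑_F lam q * B q = κ rdiv g w - ∑_F lam q * ordOmega q - ∑_i b_i ∑_F lam q * M_i q
≤ κ (rdiv g w - ∑ b_i M_i w) - ∑_F lam q * ordOmega q - ∑ b_i
= κ (B w + ordOmega w) - ∑_F lam q * ordOmega q - ∑ b_i ≤ logDisc - ∑ b_i` by `B w ≤ 1`, `κ ≥ 0`.
Since `lam q ≥ 1` and `B q ≥ 0` for `q ∈ F`, `∑_F B q ≤ ∑_F lam q * B q`.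
(second part) `logDisc = κ (ordOmega w + 1) - ∑_F lam q * ordOmega q`, and `ordOmega q ≥ 0` unless
`q(z_j) ≠ 0` for some `j`, and then `ordOmega q ≥ -1`, `q ∈ Y`; so
`- ∑_F lam q * ordOmega q ≤ ∑_{q ∈ F ∩ Y} lam q ≤ ∑_Y lam q`. -/
def StSUM : Prop := ∀ (K : Type) [Field K] [Algebra ℂ K] (n : ℕ) (L : LogCoord K n)
  (V0 : NormalProj K) (E : VertexVal V0) (ι : Type) [Fintype ι] (S : Set (DivVal K))
  (p : PairData K ι), IsGenLCY L S p → (∀ q ∈ V0.primes, q ∈ S ∨ p.B L q = 1) →
  (∃ F : Finset (DivVal K), (F : Set (DivVal K)) ⊆ V0.primes ∧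
    (∀ q ∈ V0.primes, q ∉ F → p.B L q = 0) ∧
    ∑ q ∈ F, p.B L q + ∑ i, p.b i ≤ (E.logDisc L : ℝ)) ∧
  ∀ Y : Finset (DivVal K), (∀ q ∈ V0.primes, (∃ j, q.ord (L.z j) ≠ 0) → q ∈ Y) →
    E.logDisc L ≤ (E.κ : ℤ) * (ordOmega L E.w + 1) + ∑ q ∈ Y, (E.lam q : ℤ)

/-- MODULE FIN.  The theorem.
Proof.  `F` from hSUM.  Let `T` = the members of `C` which are not in `V0.primes`, `Q` = the members `q` of
`F` which are not in `V.primes`; there `B q = 1`.  A `q ∈ V0.primes` not in `V.primes` has `B q = 1 ≠ 0`, so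
it is in `F`, hence in `Q`.  hRNK: `|T| + ρ0 ≤ ρ + |Q|`.
`∑_C B ≤ ∑_{F \ Q} B + |T|` (`B ≥ 0` on `V.primes`, `B ≤ 1` on `T`, and `B = 0` on the members of
`C ∩ V0.primes` outside `F`; the members of `C ∩ V0.primes ∩ F` are in `F \ Q`), `∑_F B = ∑_{F \ Q} B + |Q|`. -/
def StFIN : Prop := ∀ (K : Type) [Field K] [Algebra ℂ K] (n : ℕ) (L : LogCoord K n)
  (V0 V : NormalProj K) (E : VertexVal V0) (ι : Type) [Fintype ι] (p : PairData K ι),
  IsGenLCY L V.primes p → (∀ q ∈ V0.primes, q ∈ V.primes ∨ p.B L q = 1) →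
  ∀ (C : Finset (DivVal K)), (C : Set (DivVal K)) ⊆ V.primes → ∀ ρ0 ρ : ℕ,
  Module.rank ℝ (Cl V0.primes) = (ρ0 : Cardinal) → Module.rank ℝ (Cl V.primes) = (ρ : Cardinal) →
  ∑ v ∈ C, p.B L v + ∑ i, p.b i + ρ0 ≤ (E.logDisc L : ℝ) + ρ

end Pool.Agent.Helper98.GX
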