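import Pool.Agent.Helper98.GX.St

/-!
# Project GX (MP_140278_ag), second part: varieties whose effective divisors are nonnegative
# combinations of a basis of the class group

Notation `H v = V.G.div v`; all sums `∑ᶠ` are over `p ∈ V.primes`.
-/

open scoped BigOperators

namespace Pool.Agent.Helper98.GX

open Pool.Agent.Helper53.CX (DivVal LinSys IsNefCartier)

/-- The class group of `V` is free with a basis of classes `H_1, ..., H_r` of linear systems, and
every prime divisor `p` is linearly equivalent to a nonzero combination `∑ deg p k * H_k` with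
nonnegative coefficients. -/
structure ClassBasis {K : Type} [Field K] [Algebra ℂ K] (V : NormalProj K) (r : ℕ) where
  H : Fin r → LinSys K
  deg : DivVal K → Fin r → ℕ
  deg_pos : ∀ p ∈ V.primes, 1 ≤ ∑ k, deg p k
  sec : ∀ p ∈ V.primes, ∃ φ : K, φ ≠ 0 ∧
    p.ord φ + ∑ k, (deg p k : ℤ) * (H k).div p = 1 ∧
    ∀ q ∈ V.primes, q ≠ p → q.ord φ + ∑ k, (deg p k : ℤ) * (H k).div q = 0
  indep : ∀ (a : Fin r → ℤ) (φ : K), φ ≠ 0 →
    (∀ q ∈ V.primes, q.ord φ = ∑ k, a k * (H k).div q) → a = 0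

/-- The coordinates `z_j` are quotients of sections of the same `H_k`, and altogether at most `n + r`
sections are used. -/
structure SectionCoord {K : Type} [Field K] [Algebra ℂ K] {V : NormalProj K} {r : ℕ}
    (B : ClassBasis V r) {n : ℕ} (L : LogCoord K n) where
  s : Fin r → Finset K
  sub : ∀ k, ∀ g ∈ s k, g ∈ (B.H k).gens
  ratio : ∀ j, ∃ k, ∃ g ∈ s k, ∃ g' ∈ s k, L.z j = g / g'
  card_le : ∑ k, (s k).card ≤ n + r

/-- MODULE FSP.  A rational function has finitely many zeros and poles on `V`.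
Proof.  It is enough to treat one chart `R = chart V.G g0` (finitely many `g0`).  `f = a/b` with
`a, b ∈ R` nonzero (V.frac), so it is enough to show: for nonzero `x ∈ R` the set of `p` with
`IsPrimeOf R p` and `p.ord x ≠ 0` (then `> 0`) is finite.  `R` is noetherian (finitely generated by the
`a/g0`).  Let `P_p = {r ∈ R : r = 0 or p.ord r > 0}`, a prime ideal of `R` containing `x`.  It is a minimal
prime over `(x)`: let `x ∈ Q ⊆ P_p`, `Q` prime, and `y ∈ P_p` nonzero, `c = p.ord x`.  Then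
`p.ord (y^c / x) ≥ 0`, so `s * y^c = u * x` with `u, s ∈ R`, `p.ord s = 0`, `s ≠ 0`; so `s ∉ P_p`, `s ∉ Q`, and
`y ∈ Q`.  There are finitely many minimal primes over `(x)` (`Ideal.finite_minimalPrimes_of_isNoetherianRing`).
The map `p ↦ P_p` is injective: if `P_p = P_q` then `p.ord f ≥ 0 ↔ q.ord f ≥ 0` (both say
`b f = a` with `a, b ∈ R`, `b ∉ P_p`), so with `p.ord t = 1` every `f ≠ 0` has
`q.ord (f / t^(p.ord f)) = 0`, `q.ord f = p.ord f * q.ord t`, and `q.ord t = 1` since it is `≥ 0` and divides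
`1` (q.exists_one); `p = q` because the only data of `DivVal` is `ord`. -/
def StFSP : Prop := ∀ (K : Type) [Field K] [Algebra ℂ K] (V : NormalProj K) (f : K), f ≠ 0 →
  {p : DivVal K | p ∈ V.primes ∧ p.ord f ≠ 0}.Finite

/-- MODULE GRO.  Every linear system is contained in a multiple of the hyperplane class.
Proof.  Fix `g0 ∈ V.G.gens`.  (1) for `a ∈ chart V.G g0` there is `d` with `0 ≤ v.ord (a g0^d) + d H v` for
all `v` whenever `a ≠ 0` (adjoin induction; for a constant `d = 0`; for `a = g/g0` take `d = 1`,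
`v g ≥ - H v`; a larger `d` is also fine because `v g0 + H v ≥ 0`; for sums use a common `d`, for products
the sum; it is convenient to prove: for all `a` in the chart there is `d` such that for all `e ≥ d`
`a g0^e = 0 or 0 ≤ v.ord (a g0^e) + e H v`).  (2) For `h ∈ F.gens`: `b h = a`, `a, b` in the chart, `b ≠ 0`
(V.frac); common `d` for `a` and `b`: with `A = a g0^d`, `B_h = b g0^d` one has `B_h h = A`,
`v B_h + d H v ≥ 0`, `v (B_h h) + d H v ≥ 0`.  (3) `ψ = ∏_h B_h`, `c` the sum of the `d_h`: for every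
`h ∈ F.gens`: `v (ψ h) + c H v ≥ 0`, i.e. `- v h ≤ v ψ + c H v`. -/
def StGRO : Prop := ∀ (K : Type) [Field K] [Algebra ℂ K] (V : NormalProj K) (F : LinSys K),
  ∃ (c : ℕ) (ψ : K), ψ ≠ 0 ∧ ∀ v : DivVal K, F.div v ≤ v.ord ψ + (c : ℤ) * V.G.div v

/-- MODULE CBD.  Degrees.
Proof.  All supports are finite by hFSP (`(B.H k).div p ≠ 0` implies `p.ord h ≠ 0` for some generator).
Let `φ_p` be as in B.sec.
(1) `N_p = p.ord f`, finite support `F`, `Ψ = f * (∏_{p ∈ F} φ_p^(N_p))⁻¹` (zpow).  For `q ∈ V.primes`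
`q.ord Ψ = q.ord f - ∑_p N_p q.ord φ_p = q.ord f - ∑_p N_p ([q = p] - ∑_k deg p k H_k q)
= ∑_k (∑_p N_p deg p k) H_k q`; B.indep with `a_k = ∑_p N_p deg p k` gives the claim.
(2) the same with `N_p = H_k p` (`k` fixed) and `Ψ = ∏ φ_p^(N_p)`:
`q.ord Ψ = H_k q - ∑_l (∑_p N_p deg p l) H_l q`, so `a_l = [l = k] - ∑_p N_p deg p l = 0`. -/
def StCBD : Prop := ∀ (K : Type) [Field K] [Algebra ℂ K] (V : NormalProj K) (r : ℕ)
  (B : ClassBasis V r),
  (∀ f : K, f ≠ 0 → ∀ l, ∑ᶠ p ∈ V.primes, (B.deg p l : ℤ) * p.ord f = 0) ∧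
  (∀ k, {p : DivVal K | p ∈ V.primes ∧ (B.H k).div p ≠ 0}.Finite) ∧
  (∀ k, ∑ᶠ p ∈ V.primes, (B.deg p k : ℤ) * (B.H k).div p = 1) ∧
  ∀ k l, k ≠ l → ∑ᶠ p ∈ V.primes, (B.deg p l : ℤ) * (B.H k).div p = 0

/-- MODULE CBV.  The total degree is a vertex valuation with `κ = 0`.
Proof.  `lam p = ∑ k, deg p k`, `κ = 0`, `w` given.  one_le: B.deg_pos; finite: hFSP; lin: sum of hCBD (1) over
`l` (finite supports).  growth: by hGRO for every `k` there are `c_k`, `ψ_k` with
`H_k v ≤ v ψ_k + c_k H v`.  Let `c = ∑_k c_k`.  Fix `g1 ∈ V.G.gens` (`v g1 + H v ≥ 0`).  For `p` let `φ_p` be as in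
B.sec and `φ = φ_p * ∏_k (ψ_k * g1^(c - c_k))^(deg p k)`.  For all `q ∈ V.primes`:
`q.ord φ + c * lam p * H q = q.ord φ_p + ∑_k deg p k (q.ord ψ_k + (c - c_k) q.ord g1 + c H q)
≥ q.ord φ_p + ∑_k deg p k H_k q`, which is `1` for `q = p` and `0` otherwise. -/
def StCBV : Prop := ∀ (K : Type) [Field K] [Algebra ℂ K] (V : NormalProj K) (r : ℕ)
  (B : ClassBasis V r) (w : DivVal K),
  ∃ E : VertexVal V, E.κ = 0 ∧ E.w = w ∧ ∀ p, E.lam p = ∑ k, B.deg p k

/-- MODULE CBY.  Few primes occur in the coordinates.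
Proof.  For `g ∈ (B.H k).gens` and `p ∈ V.primes` let `D_g p = p.ord g + H_k p ≥ 0`, finite support, and
`∑ᶠ (∑_l deg p l) * D_g p = 0 + 1` by hCBD (sum over `l`).  As `∑_l deg p l ≥ 1` there is exactly one `p = p_g` with
`D_g p ≠ 0`, and `∑_l deg p_g l = 1`.  If `q.ord (z_j) ≠ 0`, `z_j = g/g'`, then `D_g q ≠ D_{g'} q`, so
`q = p_g` or `q = p_{g'}`.  `Y` = the set of all `p_g`, `g ∈ s k`; `∑_{q ∈ Y} ∑_k deg q k = |Y|
≤ ∑_k |s k| ≤ n + r`. -/
def StCBY : Prop := ∀ (K : Type) [Field K] [Algebra ℂ K] (V : NormalProj K) (r : ℕ)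
  (B : ClassBasis V r) (n : ℕ) (L : LogCoord K n), SectionCoord B L →
  ∃ Y : Finset (DivVal K), (∀ q ∈ V.primes, (∃ j, q.ord (L.z j) ≠ 0) → q ∈ Y) ∧
    ∑ q ∈ Y, ∑ k, B.deg q k ≤ n + r

/-- MODULE CBR.  The rank of the class group is at least `r`.
Proof.  The degree maps: for `l` let `δ_l : (V.primes →₀ ℝ) → ℝ` be the linear map
`D ↦ ∑ D p * deg p l`.  By hCBD (1) and linearity (`rdiv g = ∑ g(f) ord f`, finite sums, `f = 0` contributes
`0`) it vanishes on principal divisors (if `D p = rdiv g p` for all `p ∈ V.primes`), so it induces a linear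
map `Cl V.primes → (Fin r → ℝ)`.  It is surjective: the divisor `D_k = (H_k p)_p` (finite support by hCBD)
is mapped to the `k`-th unit vector by hCBD.  Hence `r ≤ rank` (`LinearMap.rank_le_of_surjective` or
`rank_le_of_surjective`). -/
def StCBR : Prop := ∀ (K : Type) [Field K] [Algebra ℂ K] (V : NormalProj K) (r : ℕ)
  (_ : ClassBasis V r) (ρ0 : ℕ), Module.rank ℝ (Cl V.primes) = (ρ0 : Cardinal) → r ≤ ρ0

/-- MODULE CBS.  The class group has finite rank.
Proof.  It is spanned by the classes of the divisors `D_k = (H_k p)_p`, `k < r` (finite support by hCBD):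
by B.sec the divisor `[p] - ∑_k deg p k D_k` is the divisor of `φ_p` on `V.primes`, and the `[p]` span. -/
def StCBS : Prop := ∀ (K : Type) [Field K] [Algebra ℂ K] (V : NormalProj K) (r : ℕ)
  (_ : ClassBasis V r), Module.rank ℝ (Cl V.primes) ≤ (r : Cardinal)

/-- MODULE FIC.  The theorem for varieties with a class basis.
Proof.  If `DivVal K` is empty then `C = ∅` and every `IsPseudoEffective` holds (`A` with the generator `1`,
`h = 1`, nothing to check), so `ι` is empty (nontrivial) and the left side is `0`.  Otherwise choose `w`, `E` by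
hCBV, `ρ0` with `rank Cl V0.primes = ρ0 ≤ r` (hCBS; a cardinal `≤` a natural number is one) and
`r ≤ ρ0` (hCBR), `Y` by hCBY.  hFIN: `∑_C B + ∑ b + ρ0 ≤ logDisc + ρ`; hSUM (second part) with `E.κ = 0`:
`logDisc ≤ ∑_Y lam ≤ n + r`. -/
def StFIC : Prop := ∀ (K : Type) [Field K] [Algebra ℂ K] (n : ℕ) (L : LogCoord K n)
  (V0 V : NormalProj K) (r : ℕ) (B : ClassBasis V0 r), SectionCoord B L →
  ∀ (ι : Type) [Fintype ι] (p : PairData K ι), IsGenLCY L V.primes p →
  (∀ q ∈ V0.primes, q ∈ V.primes ∨ p.B L q = 1) →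
  ∀ (C : Finset (DivVal K)), (C : Set (DivVal K)) ⊆ V.primes → ∀ ρ : ℕ,
  Module.rank ℝ (Cl V.primes) = (ρ : Cardinal) →
  ∑ v ∈ C, p.B L v + ∑ i, p.b i ≤ (n : ℝ) + ρ

end Pool.Agent.Helper98.GX
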