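import Pool.Agent.Helper98.GX.St2
import Pool.Agent.Helper98.GX.Defs2
import Pool.Agent.Helper53.CX.St
import Pool.Agent.Helper53.CX.St2

/-!
# Project GX (MP_140278_ag), third part: the equality case

THEOREM.  In the situation of StFIC (all blocks `s k` nonempty, `n ≥ 1`): if
`∑ a_i + ∑ b_i ≥ n + rank Cl(X)` then `X` is toric.

This file: equality forces `V0` to look like a product of projective spaces: the sections `g_a` form a
`Frame`, the Cox ring is the polynomial ring in the `g_a`, `K` is rational and the prime divisors of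
`V0` are those of the product.  Notation `H_k q = (B.H k).div q`.  For `f ∈ K` and `m : Fin r → ℤ` say
`f ∈ Γ(m)` if `0 ≤ q.ord f + ∑_k m_k H_k q` for all `q ∈ V.primes`.
All modules are independent: every module proves `theorem hX : StDep1 → ... → StX`.
-/

open scoped BigOperators

namespace Pool.Agent.Helper98.GX

open Pool.Agent.Helper53.CX (DivVal LinSys IsNefCartier)

/-- `n + r` sections `g a` of the classes `H_(bl a)` whose divisors are distinct prime divisors
`pr a`; the coordinates are quotients of two of them with the same `bl`, and `div ω = - ∑ pr a`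
on `V`. -/
structure Frame {K : Type} [Field K] [Algebra ℂ K] {V : NormalProj K} {r : ℕ}
    (B : ClassBasis V r) {n : ℕ} (L : LogCoord K n) where
  bl : Fin (n + r) → Fin r
  g : Fin (n + r) → K
  pr : Fin (n + r) → DivVal K
  ne : ∀ a, g a ≠ 0
  pr_mem : ∀ a, pr a ∈ V.primes
  pr_inj : Function.Injective pr
  div_self : ∀ a, (pr a).ord (g a) + (B.H (bl a)).div (pr a) = 1
  div_other : ∀ a, ∀ q ∈ V.primes, q ≠ pr a → q.ord (g a) + (B.H (bl a)).div q = 0
  surj : Function.Surjective bl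
  ratio : ∀ j, ∃ a a', bl a = bl a' ∧ L.z j = g a / g a'
  omega_pr : ∀ a, ordOmega L (pr a) = -1
  omega_other : ∀ q ∈ V.primes, (∀ a, q ≠ pr a) → ordOmega L q = 0

/-- `e` enumerates the indices which are not of the form `β k`, and `L'` has the coordinates
`g_(e j) / g_(β (bl (e j)))`, with the same top form up to a constant. -/
structure IsChart {K : Type} [Field K] [Algebra ℂ K] {V : NormalProj K} {r : ℕ}
    {B : ClassBasis V r} {n : ℕ} {L : LogCoord K n} (Fr : Frame B L) (β : Fin r → Fin (n + r))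
    (L' : LogCoord K n) (e : Fin n → Fin (n + r)) : Prop where
  base : ∀ k, Fr.bl (β k) = k
  inj : Function.Injective e
  range : ∀ a, (∃ j, e j = a) ↔ a ≠ β (Fr.bl a)
  z_eq : ∀ j, L'.z j = Fr.g (e j) / Fr.g (β (Fr.bl (e j)))
  omega : ∀ v, ordOmega L' v = ordOmega L v

/-- MODULE EQ1.  Consequences of equality, part 1.
Proof.  If `DivVal K` is empty: `C = ∅`, `rank Cl = 0`, every `IsPseudoEffective` holds, so `ι` is empty,
`n + ρ ≤ 0`; and `r = 0` (B.indep for `φ = 1`, `a = 1`: no `q` to check); take `F = ∅`.  Otherwise choose `w`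
and `E` by hCBV (`κ = 0`, `lam = ∑ deg`), `F` by hSUM, so `∑_F B + ∑ b ≤ logDisc`, and
`logDisc ≤ ∑_Y lam ≤ n + r` (hSUM, second part, with `Y` from hCBY).  `ρ0 = rank Cl V0.primes`: it is `≤ r`
(hCBS), so it is a natural number, and `≥ r` (hCBR).  Let `T` be a finite subset of
`V.primes \ V0.primes` containing `C \ V0.primes`, and `Q = F \ V.primes`; `B = 1` on `Q`, and every
`q ∈ V0.primes \ V.primes` has `B q = 1 ≠ 0`, so is in `F`, so in `Q`.  hRNK: `|T| + r ≤ ρ + |Q|`.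
As `B = 0` on `V0.primes \ F` and `B ≥ 0` on `V.primes`: `∑_C B ≤ ∑_F B - |Q| + ∑_(C \ V0.primes) B`.  So
`n + ρ ≤ ∑_F B + ∑ b - |Q| + ∑_(C \ V0.primes) B`  (*).
(first claim) let `v ∈ V.primes \ V0.primes`, `T = (C \ V0.primes) ∪ {v}`: (*) and `∑_F B + ∑ b ≤ n + r` give
`|T| ≤ ρ + |Q| - r ≤ ∑_(C \ V0.primes) B ≤ |C \ V0.primes|` (`B ≤ 1`), so `v ∈ C` and all the `B` are `1`.
(second claim) `T = C \ V0.primes`: (*) gives `n + r ≤ ∑_F B + ∑ b`. -/
def StEQ1 : Prop := ∀ (K : Type) [Field K] [Algebra ℂ K] (n : ℕ) (L : LogCoord K n)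
  (V0 V : NormalProj K) (r : ℕ) (B : ClassBasis V0 r), SectionCoord B L →
  ∀ (ι : Type) [Fintype ι] (p : PairData K ι), IsGenLCY L V.primes p →
  (∀ q ∈ V0.primes, q ∈ V.primes ∨ p.B L q = 1) →
  ∀ (C : Finset (DivVal K)), (C : Set (DivVal K)) ⊆ V.primes → ∀ ρ : ℕ,
  Module.rank ℝ (Cl V.primes) = (ρ : Cardinal) →
  (n : ℝ) + ρ ≤ ∑ v ∈ C, p.B L v + ∑ i, p.b i →
  (∀ v ∈ V.primes, v ∈ V0.primes ∨ p.B L v = 1) ∧
  ∃ F : Finset (DivVal K), (F : Set (DivVal K)) ⊆ V0.primes ∧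
    (∀ q ∈ V0.primes, q ∉ F → p.B L q = 0) ∧ (n : ℝ) + r ≤ ∑ q ∈ F, p.B L q + ∑ i, p.b i

/-- MODULE EQ2.  Consequences of equality, part 2.
Proof.  If `DivVal K` is empty then `F = ∅`, `ι` is empty (as in EQ1), `n + r ≤ 0` and everything is trivial.
Otherwise let `E` be as in hCBV, `lam q = ∑_k deg q k`.  For `(k,g)`, `g ∈ s k`, `D_g q = q.ord g + H_k q ≥ 0`
(`q ∈ V0.primes`) has finite support and `∑ᶠ lam q * D_g q = 1` (hCBD, hFSP), so there is exactly one
`p_g ∈ V0.primes` with `D_g ≠ 0`; `D_g p_g = 1`, `lam p_g = 1` (as in CBY).  `Y` = the set of all `p_g`.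
`q.ord (z_j) ≠ 0`, `z_j = g/g'`, implies `q ∈ Y`, so `ordOmega q ≥ 0` for `q ∉ Y` and `ordOmega q ≥ -1`
always (hJLB).  `λ_i = ∑ᶠ lam q * M_i q ≥ 1` (hLAM, `κ = 0`).  Let `F'` be a finite subset of
`V0.primes` containing `F`, `Y`, the zeros and poles of the `f` in the support of `g`, the supports of
the `M_i` (and any further given `q`).  `∑_F' lam q * rdiv g q = 0` (E.lin), so
`∑_F' lam * B = - ∑_F' lam * ordOmega - ∑ b_i λ_i`, and with `B ≥ 0` on `V0.primes`, `lam ≥ 1`: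
`n + r ≤ ∑_F B + ∑ b ≤ ∑_F' lam * B + ∑ b_i λ_i = - ∑_F' lam * ordOmega ≤ ∑_Y lam = |Y| ≤ ∑ |s k| ≤ n + r`.
So everything is an equality: `lam = 1` where `B > 0`; `λ_i = 1` if `b_i > 0`; `ordOmega = -1` on `Y` and `0` on
`F' \ Y` (as `F'` may contain any given `q`: on `V0.primes \ Y`); `|Y| = ∑ |s k| = n + r`, so the `p_g` are
distinct and `Σ k, s k` is in bijection with `Fin (n + r)`. -/
def StEQ2 : Prop := ∀ (K : Type) [Field K] [Algebra ℂ K] (n : ℕ) (L : LogCoord K n)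
  (V0 : NormalProj K) (r : ℕ) (B : ClassBasis V0 r) (SC : SectionCoord B L),
  (∀ k, (SC.s k).Nonempty) →
  ∀ (ι : Type) [Fintype ι] (S : Set (DivVal K)) (p : PairData K ι), IsGenLCY L S p →
  (∀ q ∈ V0.primes, q ∈ S ∨ p.B L q = 1) →
  ∀ F : Finset (DivVal K), (F : Set (DivVal K)) ⊆ V0.primes →
  (∀ q ∈ V0.primes, q ∉ F → p.B L q = 0) → (n : ℝ) + r ≤ ∑ q ∈ F, p.B L q + ∑ i, p.b i →
  Nonempty (Frame B L) ∧ (∀ q ∈ V0.primes, 0 < p.B L q → ∑ k, B.deg q k = 1) ∧
  ∀ i, 0 < p.b i → ∑ᶠ q ∈ V0.primes, (∑ k, (B.deg q k : ℤ)) * p.M i q = 1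

/-- MODULE UNQ.  A derivation is determined by its values on a transcendence basis.
Proof.  `D = d - ∑_j (d z_j / z_j) θ_j` is a derivation of `K` with `D z_i = 0` for all `i` (`z_i ≠ 0`), so it
vanishes on the subfield `C(z)`; `f ∈ K` is algebraic over it (separable, characteristic 0): `P(f) = 0`,
`P'(f) ≠ 0` for the minimal polynomial, and `0 = D(P(f)) = P'(f) D f`. -/
def StUNQ : Prop := ∀ (K : Type) [Field K] [Algebra ℂ K] (n : ℕ) (L : LogCoord K n)
  (d : Derivation ℂ K K) (f : K), d f = ∑ j, (d (L.z j) / L.z j) * L.θ j f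

/-- MODULE KER.  The constants of all `θ_j`.
Proof.  Suppose `θ_j f = 0` for all `j`.  Let `F = C(z) ⊆ K` (the subfield generated by the `z_j`; `K` is algebraic
over it) and `P` the minimal polynomial of `f` over `F` (monic).  `θ_j` maps `F` to `F`.
`0 = θ_j (P(f)) = P^θj(f) + P'(f) θ_j f = P^θj(f)` where `P^θj` has the coefficients `θ_j c`; its degree
is smaller than that of `P` (leading coefficient `1`), so it is `0`: all coefficients `c ∈ F` of `P` satisfy
`θ_j c = 0` for all `j`.  Such a `c` is a constant: `c = A/D` with coprime polynomials in the `z_j`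
(algebraically independent), `D θ_j A = A θ_j D`, so `A ∣ θ_j A`; `θ_j` (`= X_j d/dX_j` on polynomials) multiplies the
monomial `z^μ` by `μ_j`, degrees do not go up, so `θ_j A = λ_j A`, and all monomials of `A` have the same
exponent of `z_j`; the same for `D`; so `A` and `D` are monomials up to constants, coprime, and
`θ_j c = 0` forces `λ_j(A) = λ_j(D)`, so both are constants.  (Alternatively use Kaehler differentials or any
Mathlib lemma about derivations and algebraic elements.)  So `f` is algebraic over `C`, hence constant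
(`ℂ` algebraically closed). -/
def StKER : Prop := ∀ (K : Type) [Field K] [Algebra ℂ K] (n : ℕ) (L : LogCoord K n) (f : K),
  (∀ j, L.θ j f = 0) → ∃ c : ℂ, f = algebraMap ℂ K c

/-- MODULE CRA.  Cramer's rule: the log derivations preserve the valuation ring.
Proof.  By hJEX there is `e` with `IsJacMin L v e`, and `ordOmega L v = - e` (the `e` of a minimum is unique), so
`e = ∑ v z_b`.  Let `f_b = z_b` for `b ≠ j`, `f_j = f`: `jac L f = θ_j f * ∏_(b ≠ j) z_b` (the rows `b ≠ j` of the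
matrix are diagonal).  It is nonzero, so `e ≤ v (θ_j f) + ∑_(b ≠ j) v z_b`. -/
def StCRA : Prop := ∀ (K : Type) [Field K] [Algebra ℂ K] (n : ℕ) (L : LogCoord K n) (v : DivVal K),
  (∀ j, 0 ≤ v.ord (L.z j)) → ordOmega L v = - ∑ j, v.ord (L.z j) →
  ∀ (f : K) (j : Fin n), 0 ≤ v.ord f → L.θ j f ≠ 0 → v.ord (L.z j) ≤ v.ord (L.θ j f)

/-- MODULE LPX.  The charts.
Proof.  Write `Fr.bl`, `Fr.g`.  The indices `a` with `a ≠ β (bl a)` are those outside the range of the injective
map `β`, there are `n` of them: choose `e`.  `u_j = g_(e j) / g_(β (bl (e j)))`.  Every `z_j = g_a/g_a'`,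
`bl a = bl a' = k`, is a quotient of `g_a/g_(β k)` and `g_a'/g_(β k)`, each of which is `1` or some `u_b`; so
`z_j = ∏_b u_b^(M_jb)`, `M` an integer matrix.  `K` is algebraic over `C(z) ⊆ C(u)`, so `u` (with `n` elements,
`n` the transcendence degree) is a transcendence basis.  With `N_cj = θ_j u_c / u_c`: `θ_i z_j / z_j = [i = j]
= ∑_c M_jc N_ci`, i.e. `M * N = 1` for square matrices over `K`, so `N * M = 1`: `∑_j N_cj M_jb = [b = c]`.
Put `θ'_b = ∑_j M_jb θ_j`: `θ'_b u_c = [b = c] u_c`.  `L' = (u, θ')`.  `jac L' f = det M * jac L f` and `det M` is a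
nonzero integer (of order `0` at every `v`, because constants have order `0`), so `IsJacMin L' v e` iff
`IsJacMin L v e`, and `ordOmega` is the same (the minimum is unique). -/
def StLPX : Prop := ∀ (K : Type) [Field K] [Algebra ℂ K] (V : NormalProj K) (r : ℕ)
  (B : ClassBasis V r) (n : ℕ) (L : LogCoord K n) (Fr : Frame B L) (β : Fin r → Fin (n + r)),
  (∀ k, Fr.bl (β k) = k) → ∃ (L' : LogCoord K n) (e : Fin n → Fin (n + r)), IsChart Fr β L' e

/-- MODULE BAS.  Every prime divisor is in some chart.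
Proof.  For `k` we need `a` with `bl a = k`, `pr a ≠ q`; `bl` is surjective.  This is clear unless `q = pr a0` with
`bl a0 = k` (if `q = pr a`, `bl a = k` then `a = a0`).  Suppose that `a0` is the only index with `bl a0 = k`.  Choose
`β` with `bl (β l) = l` for all `l` (surj), so `β k = a0`, and a chart `L', e` (hLPX).  For every `j`: `e j ≠ a0`
(range: `a0 = β (bl a0)`), so `bl (e j) = l ≠ k` and `β l ≠ a0` (`bl (β l) = l`).  By div_other for `e j` and `β l` at
`q = pr a0`: `q.ord (L'.z j) = - H_l q + H_l q = 0`.  hJLB: `0 ≤ ordOmega L' q = ordOmega L q = -1`,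
contradiction. -/
def StBAS : Prop := ∀ (K : Type) [Field K] [Algebra ℂ K] (V : NormalProj K) (r : ℕ)
  (B : ClassBasis V r) (n : ℕ) (L : LogCoord K n) (Fr : Frame B L), ∀ q ∈ V.primes,
  ∃ β : Fin r → Fin (n + r), (∀ k, Fr.bl (β k) = k) ∧ ∀ k, q ≠ Fr.pr (β k)

/-- MODULE DRV.  The derivatives with respect to the sections.
Proof.  Choose `β` with `bl (β k) = k` and a chart `L', e` (hLPX), `z' = L'.z`, `θ' = L'.θ`.  For `a = e j`:
`d_a = (1/g_a) θ'_j`; for `a = β k`: `d_a = - (1/g_a) ∑_(j : bl (e j) = k) θ'_j`.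
`c_(a,l) = ([a = β l] - d_a (g_(β l))) / g_(β l)`.
(1) for `b = β l` clear.  For `b = e j`, `l = bl b`: `g_b = z'_j g_(β l)`, so the left side is
`g_(β l) d_a z'_j + z'_j [a = β l]`.  `a = e j'`: `g_(β l) [j = j'] z'_j / g_a = [j = j']`.  `a = β k`:
`- [l = k] z'_j + z'_j [k = l] = 0`.
(2) `g_(β k) d_(β k) f = - ∑_(bl (e j) = k) θ'_j f` cancels the other terms (every `a ≠ β k` with `bl a = k` is
`e j` for exactly one `j`).  (3) `(∑_(bl a = k) g_a [a = β l] - ∑_(bl a = k) g_a d_a (g_(β l))) / g_(β l)` and (2). -/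
def StDRV : Prop := ∀ (K : Type) [Field K] [Algebra ℂ K] (V : NormalProj K) (r : ℕ)
  (B : ClassBasis V r) (n : ℕ) (L : LogCoord K n) (Fr : Frame B L),
  ∃ (d : Fin (n + r) → Derivation ℂ K K) (c : Fin (n + r) → Fin r → K),
    (∀ a b, d a (Fr.g b) + c a (Fr.bl b) * Fr.g b = if a = b then 1 else 0) ∧
    (∀ k f, ∑ a, (if Fr.bl a = k then Fr.g a * d a f else 0) = 0) ∧
    ∀ k l, ∑ a, (if Fr.bl a = k then Fr.g a * c a l else 0) = if k = l then 1 else 0

/-- MODULE REG.  The derivative of a section is a section.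
Proof.  Let `β` be as in hBAS for `q`, `L', e` a chart (hLPX), `z' = L'.z`, `θ' = L'.θ`, `G_l = g_(β l)`,
`q.ord G_l = - H_l q` (div_other).  `q.ord z'_j = 1` if `q = pr (e j)` and `0` otherwise.  If `q = pr b` for some
`b` then `b ≠ β k` for all `k`, so `b = e j` for exactly one `j` and `ordOmega L' q = ordOmega L q = -1
= - ∑ q.ord z'_j`; otherwise both are `0`.  So hCRA applies to `L'`, `q`.
`φ = f / ∏_l G_l^(m_l)` has `q.ord φ = q.ord f + ∑ m_l H_l q ≥ 0`.  With `Π = ∏ G_l^(m_l)` (zpow), `f = φ Π`: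
`F' = Π (d_a φ) + φ (d_a Π + (∑ m_l c_al) Π)` and `d_a Π + (∑ m_l c_al) Π = Π ∑_l m_l (d_a G_l / G_l + c_al)
= Π m_k [a = β k] / G_k`, `k = bl a` (by (1) of the hypothesis with `b = β l`), whose product with `φ` is `0` or has
`q.ord ≥ - ∑ m_l H_l q + H_k q`.  By hUNQ (for `L'`) `d_a φ = ∑_j (d_a z'_j / z'_j) θ'_j φ`, and by (1)
`d_a z'_j / z'_j = [a = e j]/g_(e j) - [a = β l]/G_l`, `l = bl (e j)`.  If `a = e j`: `d_a φ = θ'_j φ / g_a`, of order
(if nonzero) `≥ q.ord z'_j - q.ord g_a = - q.ord G_k = H_k q`.  If `a = β k`: `d_a φ = - (1/G_k) ∑ θ'_j φ` over the `j`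
with `bl (e j) = k`, each term has order `≥ H_k q` (`q.ord z'_j ≥ 0`).  Add up (`ord_add`, careful with zero
terms). -/
def StREG : Prop := ∀ (K : Type) [Field K] [Algebra ℂ K] (V : NormalProj K) (r : ℕ)
  (B : ClassBasis V r) (n : ℕ) (L : LogCoord K n) (Fr : Frame B L)
  (d : Fin (n + r) → Derivation ℂ K K) (c : Fin (n + r) → Fin r → K),
  (∀ a b, d a (Fr.g b) + c a (Fr.bl b) * Fr.g b = if a = b then 1 else 0) →
  ∀ q ∈ V.primes, ∀ (m : Fin r → ℤ) (f : K) (a : Fin (n + r)), f ≠ 0 →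
  0 ≤ q.ord f + ∑ k, m k * (B.H k).div q →
  d a f + (∑ k, (m k : K) * c a k) * f ≠ 0 →
  0 ≤ q.ord (d a f + (∑ k, (m k : K) * c a k) * f) + ∑ k, m k * (B.H k).div q -
    (B.H (Fr.bl a)).div q

/-- MODULE GAM.  The Cox ring is the polynomial ring in the sections `g_a`.
Proof.  (0) if `f ≠ 0` is in `Γ(m)` then `m_k ≥ 0` for all `k`: by hCBD and hFSP (finite supports)
`∑ᶠ_p deg p k * (p.ord f + ∑_l m_l H_l p) = m_k` and all terms are `≥ 0`.
Induction on the natural number `∑ m_k`; `d, c` from hDRV, `F_a = d_a f + (∑_l m_l c_al) f`; by hREG `F_a` is `0` or in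
`Γ(m - e_k)`, `k = bl a`.
If `∑ m_k = 0` then `m = 0`, and `F_a = d_a f` would be in `Γ(- e_k)`, so `d_a f = 0` for all `a` by (0).  Choose
`β`, a chart `L', e` (surj, hLPX): by hUNQ and hDRV (1) `d_(e j) f = θ'_j f / g_(e j)`, so all `θ'_j f = 0` and `f` is
a constant by hKER: the monomial `α = 0`.
Otherwise `m_k ≥ 1` for some `k`, and `m_k f = ∑_(bl a = k) g_a F_a` by hDRV (2) and (3).  By induction every
`F_a` with `bl a = k` is in the span for `m - e_k`, and `g_a` times the span for `m - e_k` is in the span for `m`.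
Divide by `m_k` (a nonzero constant). -/
def StGAM : Prop := ∀ (K : Type) [Field K] [Algebra ℂ K] (V : NormalProj K) (r : ℕ)
  (B : ClassBasis V r) (n : ℕ) (L : LogCoord K n) (Fr : Frame B L) (m : Fin r → ℤ) (f : K), f ≠ 0 →
  (∀ q ∈ V.primes, 0 ≤ q.ord f + ∑ k, m k * (B.H k).div q) →
  f ∈ Submodule.span ℂ {h : K | ∃ α : Fin (n + r) → ℕ,
    (∀ k, ∑ a, (if Fr.bl a = k then (α a : ℤ) else 0) = m k) ∧ h = ∏ a, Fr.g a ^ α a}

/-- MODULE OUR.  The coordinate ring of the chart `∏ A^(n_k)`; equations of the prime divisors.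
Proof.  First claim: let `m_k` be the maximum of `0` and `- (pr (β k)).ord f`, `h = f ∏_l g_(β l)^(m_l)`.  For
`q ∈ V.primes`: `q.ord h + ∑ m_l H_l q = q.ord f + ∑_l m_l (q.ord g_(β l) + H_l q) = q.ord f + ∑_l m_l [q = pr (β l)]`
`≥ 0` (`q` is equal to at most one `pr (β l)`; `m ≥ 0`).  By hGAM `h` is a combination of `∏ g_a^(α a)` with
`∑_(bl a = k) α a = m_k`, so `f` is a combination of the `∏ (g_a / g_(β (bl a)))^(α a)`.
Second claim: `φ` from B.sec for `q`, `u = φ * ∏_k g_(β k)^(- deg q k)`: for `q'` different from all `pr (β k)`: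
`q'.ord u = q'.ord φ + ∑ deg q k * H_k q'` by div_other.  Third claim: at `q' = pr (β l)`:
`q'.ord u = (q'.ord φ + ∑_k deg q k H_k q') - ∑_k deg q k [l = k] = - deg q l`. -/
def StOUR : Prop := ∀ (K : Type) [Field K] [Algebra ℂ K] (V : NormalProj K) (r : ℕ)
  (B : ClassBasis V r) (n : ℕ) (L : LogCoord K n) (Fr : Frame B L) (β : Fin r → Fin (n + r)),
  (∀ k, Fr.bl (β k) = k) →
  (∀ f : K, f ≠ 0 → (∀ q ∈ V.primes, (∀ k, q ≠ Fr.pr (β k)) → 0 ≤ q.ord f) →
    f ∈ Algebra.adjoin ℂ (Set.range fun a => Fr.g a / Fr.g (β (Fr.bl a)))) ∧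
  ∀ q ∈ V.primes, (∀ k, q ≠ Fr.pr (β k)) → ∃ u φ : K, u ≠ 0 ∧ φ ≠ 0 ∧
    u = φ * ∏ k, Fr.g (β k) ^ (-(B.deg q k : ℤ)) ∧
    (∀ q' ∈ V.primes, 0 ≤ q'.ord φ + ∑ k, (B.deg q k : ℤ) * (B.H k).div q') ∧ q.ord u = 1 ∧
    (∀ q' ∈ V.primes, (∀ k, q' ≠ Fr.pr (β k)) → q' ≠ q → q'.ord u = 0) ∧
    ∀ l, (Fr.pr (β l)).ord u = - (B.deg q l : ℤ)

/-- MODULE SIG.  `K` is rational.
Proof.  `X_j ↦ z'_j` is injective on polynomials (`L'.basis`), so it extends to the field `Kn n`
(`IsFractionRing.lift` or `IsLocalization.lift`).  Surjective: let `f ≠ 0`.  The set `P` of the `q ∈ V.primes`,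
different from all `pr (β k)`, with `q.ord f < 0` is finite (hFSP).  For `q ∈ P` let `u_q` be as in hOUR and
`b = ∏_P u_q^(- q.ord f)` (natural exponents).  By hOUR `b` and `f b` are in the algebra generated by the
`g_a / g_(β (bl a))`, which are `1` or some `z'_j` (range of `e`): both are in the image; so `f = (f b)/b` is. -/
def StSIG : Prop := ∀ (K : Type) [Field K] [Algebra ℂ K] (V : NormalProj K) (r : ℕ)
  (B : ClassBasis V r) (n : ℕ) (L : LogCoord K n) (Fr : Frame B L) (β : Fin r → Fin (n + r))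
  (L' : LogCoord K n) (e : Fin n → Fin (n + r)), IsChart Fr β L' e →
  ∃ σ : Pool.Agent.Helper53.CX.Kn n ≃ₐ[ℂ] K, ∀ j, σ (Pool.Agent.Helper53.CX.x j) = L'.z j

/-- MODULE PRF.  The prime divisors meeting the chart.
Proof.  Identify `Kn n` with `K` by `σ`; `σ` maps `Pn n` onto `R' = adjoin (range z')`, which is also the algebra of
hOUR.  By hOUR (and `q.ord z'_j ≥ 0` for the `q` in question: div_self, div_other)
`R' \ 0 = {f ≠ 0 : q.ord f ≥ 0 for all finite q}`, where `finite q` means `q ∈ V.primes` and `q ≠ pr (β k)` for all `k`.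
(1) let `q` be finite, `u = u_q` from hOUR: `u ∈ R'`, `u = σ P`.  For `f ∈ R'`: `q.ord f ≥ 1` iff `u ∣ f` in `R'`: if
`q.ord f ≥ 1` then `f/u` has order `≥ 0` at all finite primes.  So `u` is a prime element of `R'` (not a unit, as
`q.ord u = 1`), `P` is irreducible, and for `f = σ p`, `p = P^k p'`, `¬ P ∣ p'`: `q.ord f = k`, the multiplicity;
the same for quotients (`padOrd = extOrd (multiplicity)`; see Pool/Agent/Helper53/CX/M_Pad.lean, M_Ext.lean and
hPad, hExt for the properties of `padOrd`).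
(2) let `P` be irreducible, `f = σ P`.  `f` and `f⁻¹` are not both in `R'` (`P` is not a unit), so there is a finite
`q` with `q.ord f ≥ 1`; by (1) `u_q ∣ f`, so `f = u_q` up to a unit and `q` is the `P`-adic valuation. -/
def StPRF : Prop := ∀ (K : Type) [Field K] [Algebra ℂ K] (V : NormalProj K) (r : ℕ)
  (B : ClassBasis V r) (n : ℕ) (L : LogCoord K n) (Fr : Frame B L) (β : Fin r → Fin (n + r))
  (L' : LogCoord K n) (e : Fin n → Fin (n + r)), IsChart Fr β L' e →
  ∀ σ : Pool.Agent.Helper53.CX.Kn n ≃ₐ[ℂ] K, (∀ j, σ (Pool.Agent.Helper53.CX.x j) = L'.z j) →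
  (∀ q ∈ V.primes, (∀ k, q ≠ Fr.pr (β k)) → ∃ P : Pool.Agent.Helper53.CX.Pn n, Irreducible P ∧
    ∀ f, q.ord (σ f) = Pool.Agent.Helper53.CX.padOrd P f) ∧
  ∀ P : Pool.Agent.Helper53.CX.Pn n, Irreducible P → ∃ q ∈ V.primes, (∀ k, q ≠ Fr.pr (β k)) ∧
    ∀ f, q.ord (σ f) = Pool.Agent.Helper53.CX.padOrd P f

/-- MODULE PRI.  The prime divisors at infinity.
Proof.  Let `q = pr (β k)`.  By hBAS for `q` there is `a1` with `bl a1 = k`, `a1 ≠ β k`.  `β'` = `β` with the value
`a1` at `k`; chart `L'', e'` (hLPX), `σ'` (hSIG).  `q ≠ pr (β' l)` for all `l`, so hPRF gives an irreducible `P` with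
`q ∘ σ' = padOrd P`.  `β k = e' j1` for some `j1`, `z''_j1 = g_(β k)/g_a1` has `q.ord = 1` (div_self, div_other), so
`P ∣ X_j1` and `q ∘ σ'` is the `X_j1`-adic valuation: the minimal exponent of `X_j1` (`= monOrd (Pi.single j1 1)`).
For `a = e j`: `z'_j = z''_j''` (`e' j'' = a`) if `bl a ≠ k`; `z'_j = 1/z''_j1` if `a = a1`;
`z'_j = z''_j'' / z''_j1` if `bl a = k`, `a ≠ a1`, `e' j'' = a`.  So for a polynomial `p = ∑ c_α x^α`,
`σ p = ∑ c_α z'^α` where `z'^α` is the Laurent monomial in `z''` with exponent `- ∑_(bl (e j) = k) α_j` at `j1` and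
`α_j` at the `j''` of the `e j ≠ a1`; distinct `α` give distinct Laurent monomials.  Multiply by `z''_j1^D`, `D` large:
a polynomial in `z''` with distinct monomials, of `X_j1`-adic order `D + min_α (- ∑_(bl (e j) = k) α_j)`.  So
`q.ord (σ p) = monO w p`, `w_j = -1` if `bl (e j) = k` and `0` otherwise; then quotients (`monOrd = extOrd (monO w)`,
see hExt, hMon). -/
def StPRI : Prop := ∀ (K : Type) [Field K] [Algebra ℂ K] (V : NormalProj K) (r : ℕ)
  (B : ClassBasis V r) (n : ℕ) (L : LogCoord K n) (Fr : Frame B L) (β : Fin r → Fin (n + r))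
  (L' : LogCoord K n) (e : Fin n → Fin (n + r)), IsChart Fr β L' e →
  ∀ σ : Pool.Agent.Helper53.CX.Kn n ≃ₐ[ℂ] K, (∀ j, σ (Pool.Agent.Helper53.CX.x j) = L'.z j) →
  ∀ (k : Fin r) (f : Pool.Agent.Helper53.CX.Kn n), (Fr.pr (β k)).ord (σ f) =
    Pool.Agent.Helper53.CX.monOrd (fun j => if Fr.bl (e j) = k then (-1 : ℤ) else 0) f

end Pool.Agent.Helper98.GX
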