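import Pool.Agent.Helper98.GX.St3

/-!
# Project GX (MP_140278_ag), fourth part: the equality case, stability and the torus

Continues St3.lean.  `H_k q = (B.H k).div q`, `lam q = ∑_k deg q k`.
All modules are independent: every module proves `theorem hX : StDep1 → ... → StX`.
-/

open scoped BigOperators

namespace Pool.Agent.Helper98.GX

open Pool.Agent.Helper53.CX (DivVal LinSys IsNefCartier)

/-- the vectors supported in the block `k` -/
def Blk {N r : ℕ} (bl : Fin N → Fin r) (k : Fin r) : Submodule ℂ (Fin N → ℂ) where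
  carrier := {x | ∀ a, bl a ≠ k → x a = 0}
  add_mem' := by
    intro x y hx hy a ha
    rw [Pi.add_apply, hx a ha, hy a ha, add_zero]
  zero_mem' := fun _ _ => rfl
  smul_mem' := by
    intro c x hx a ha
    rw [Pi.smul_apply, hx a ha, smul_zero]

/-- every row of `T` is supported in its own block -/
def Graded {N r : ℕ} (bl : Fin N → Fin r) (T : Matrix (Fin N) (Fin N) ℂ) : Prop :=
  ∀ a b, T a b ≠ 0 → bl b = bl a

/-- a weighted family of subspaces of the blocks -/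
structure Fam {N r : ℕ} (bl : Fin N → Fin r) where
  I : Type
  fin : Fintype I
  bI : I → Fin r
  W : I → Submodule ℂ (Fin N → ℂ)
  c : I → ℝ
  pos : ∀ i, 0 < c i
  ne : ∀ i, W i ≠ ⊥
  le : ∀ i, W i ≤ Blk bl (bI i)
  sum : ∀ k, (∑ i, if bI i = k then c i else 0) =
    ((Finset.univ.filter fun a => bl a = k).card : ℝ)

attribute [instance] Fam.fin

open Classical in
/-- the weight of a subspace -/
noncomputable def Fam.w {N r : ℕ} {bl : Fin N → Fin r} (Φ : Fam bl)
    (U : Submodule ℂ (Fin N → ℂ)) : ℝ := ∑ i, if Φ.W i ≤ U then Φ.c i else 0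

/-- the family is semistable -/
def Fam.Stable {N r : ℕ} {bl : Fin N → Fin r} (Φ : Fam bl) : Prop :=
  ∀ U : Submodule ℂ (Fin N → ℂ), Φ.w U ≤ (Module.finrank ℂ U : ℝ)

/-- all tight subspaces are spanned by rows of `T` -/
def Fam.Adapted {N r : ℕ} {bl : Fin N → Fin r} (Φ : Fam bl) (T : Matrix (Fin N) (Fin N) ℂ) : Prop :=
  ∀ U : Submodule ℂ (Fin N → ℂ), Φ.w U = (Module.finrank ℂ U : ℝ) →
    ∃ J : Finset (Fin N), U = Submodule.span ℂ (T '' (J : Set (Fin N)))

section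
variable {K : Type} [Field K] [Algebra ℂ K] {V : NormalProj K} {r : ℕ} {B : ClassBasis V r} {n : ℕ}
  {L : LogCoord K n}

/-- the linear combination `∑ x_a g_a` -/
noncomputable def Frame.sec (Fr : Frame B L) (x : Fin (n + r) → ℂ) : K :=
  ∑ a, algebraMap ℂ K (x a) * Fr.g a

/-- minimal order along `v` of the sections in `W` -/
noncomputable def Frame.smin (Fr : Frame B L) (v : DivVal K)
    (W : Submodule ℂ (Fin (n + r) → ℂ)) : ℤ :=
  sInf {k : ℤ | ∃ x ∈ W, x ≠ 0 ∧ v.ord (Fr.sec x) = k}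

/-- log discrepancy plus the orders of the `g_a` -/
noncomputable def Frame.Ad (Fr : Frame B L) (v : DivVal K) : ℤ :=
  ordOmega L v + 1 + ∑ a, v.ord (Fr.g a)

end

/-- MODULE SEC.  Linear combinations of sections in one block.
Proof.  (1) Choose `β` (surj) and a chart `L', e` (hLPX): for `x ∈ Blk k`
`sec x = g_(β k) (x_(β k) + ∑_(bl (e j) = k) x_(e j) z'_j)`, a nonzero polynomial of degree `≤ 1` in the algebraically
independent `z'_j` times a nonzero element (every `a` with `bl a = k` is `β k` or `e j` for exactly one `j`).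
(2) constants have order `0`, so `v.ord (sec x) ≥ min_a v.ord (g a)` for `x ∈ Blk k`, `x ≠ 0` (all partial sums: use an
induction over finsets for elements which are `0` or have order `≥ C`): the set in the definition of `smin` is
nonempty and bounded below. -/
def StSEC : Prop := ∀ (K : Type) [Field K] [Algebra ℂ K] (V : NormalProj K) (r : ℕ)
  (B : ClassBasis V r) (n : ℕ) (L : LogCoord K n) (Fr : Frame B L),
  (∀ k, ∀ x ∈ Blk Fr.bl k, x ≠ 0 → Fr.sec x ≠ 0) ∧
  ∀ (v : DivVal K) (k : Fin r) (W : Submodule ℂ (Fin (n + r) → ℂ)), W ≤ Blk Fr.bl k → W ≠ ⊥ →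
    (∀ x ∈ W, x ≠ 0 → Fr.smin v W ≤ v.ord (Fr.sec x)) ∧
    ∃ x ∈ W, x ≠ 0 ∧ v.ord (Fr.sec x) = Fr.smin v W

/-- MODULE ALI.  Dual derivations give algebraic independence.
Proof.  `θ_j` multiplies `y^μ` by `μ_j` (`y^μ ≠ 0`).  Suppose `∑ c_μ y^μ = 0` is a nontrivial relation with the
smallest number of terms; it has at least two terms `μ ≠ ν`, say `μ_j ≠ ν_j`; applying `θ_j` and subtracting `μ_j`
times the relation gives a shorter nontrivial relation.  So `y` is algebraically independent with `n` elements,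
and the transcendence degree of `K` is `n` (`L.basis`), so it is a transcendence basis. -/
def StALI : Prop := ∀ (K : Type) [Field K] [Algebra ℂ K] (n : ℕ) (_ : LogCoord K n) (y : Fin n → K)
  (θ : Fin n → Derivation ℂ K K), (∀ i, y i ≠ 0) →
  (∀ i j, θ j (y i) = if i = j then y i else 0) → IsTranscendenceBasis ℂ y

/-- MODULE LIN.  Change of linear coordinates: the top form.
Proof.  `S = T⁻¹` is graded too (`T` maps every `Blk` to itself bijectively), `g'_a = sec (T a) = ∑_b T_ab g_b ≠ 0`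
(hSEC: `T a ∈ Blk (bl a)`, nonzero).  `d, c` from hDRV; `d'_a = ∑_b S_ba d_b`, `c'_(a,l) = ∑_b S_ba c_(b,l)`:
`d'_a g'_c + c'_(a,bl c) g'_c = ∑_b ∑_e S_ba T_ce (d_b g_e + c_(b,bl c) g_e) = ∑_b T_cb S_ba = [c = a]`.
`y_j = g'_(e j) / g'_(β l)`, `l = bl (e j)`: `d'_a y_j / y_j = [a = e j]/g'_(e j) - [a = β l]/g'_(β l)`, so
`θ''_j = g'_(e j) d'_(e j)` satisfies `θ''_j y_i = [i = j] y_i`.  hALI: `L'' = (y, θ'')` is a LogCoord.
By hUNQ (for `L'`): `θ''_j = ∑_i A_ji θ'_i` with `A_ji = θ''_j z'_i / z'_i`, so `jac L'' f = det A * jac L' f`.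
Claim: `det A = ± det S * ∏_a g'_a / ∏_a g_a`.  `A_ji = g'_(e j) R_ji`,
`R_ji = S_(e i, e j)/g_(e i) - S_(β l, e j)/g_(β l)`, `l = bl (e i)`.  Consider the square matrix `Q` with rows and
columns indexed by `Fin (n+r)` (or by `Fin n ⊕ Fin r` through `e` and `β`): `Q_(c,a) = S_(a,c)/g_a -
S_(β (bl a), c)/g_(β (bl a))` for `a = e i` and `Q_(c, β k) = S_(β k, c)/g_(β k)`.  Column operations:
`det Q = det S / ∏ g_a` (up to sign from the indexing).  `∑_(bl c = k) g'_c S_(a,c) = [bl a = k] g_a` (from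
`S T = 1`, graded), so replacing the row `β k` by `∑_(bl c = k) (g'_c / g'_(β k)) * row c` (determinant unchanged) gives
a row which is `0` at all `e i` and `1/g'_(β k)` at `β k`, `0` at the other `β l`.  So `det Q = ± det R * ∏_k 1/g'_(β k)`.
Hence `det A = ∏_j g'_(e j) * det R = ± det S ∏_a g'_a / ∏_a g_a`.
So `jac L'' f = (det A) * jac L' f` gives `IsJacMin L'' v (e0 + v.ord (det A))` iff `IsJacMin L' v e0`; the minimum
exists (hJEX) and is unique: `ordOmega L'' v = ordOmega L' v - v.ord (det A)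
= ordOmega L v - ∑ v.ord g'_a + ∑ v.ord g_a` (constants have order 0). -/
def StLIN : Prop := ∀ (K : Type) [Field K] [Algebra ℂ K] (V : NormalProj K) (r : ℕ)
  (B : ClassBasis V r) (n : ℕ) (L : LogCoord K n) (Fr : Frame B L) (β : Fin r → Fin (n + r))
  (L' : LogCoord K n) (e : Fin n → Fin (n + r)), IsChart Fr β L' e →
  ∀ T : Matrix (Fin (n + r)) (Fin (n + r)) ℂ, IsUnit T.det → Graded Fr.bl T →
  ∃ L'' : LogCoord K n,
    (∀ j, L''.z j = Fr.sec (T (e j)) / Fr.sec (T (β (Fr.bl (e j))))) ∧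
    ∀ v, ordOmega L'' v + ∑ a, v.ord (Fr.sec (T a)) = ordOmega L v + ∑ a, v.ord (Fr.g a)

/-- MODULE LFR.  A linear change of coordinates of a Frame is a Frame.
Proof.  Choose `β` (surj), a chart (hLPX), `L''` from hLIN; `g'_a = sec (T a)`, nonzero by hSEC.  For
`q ∈ V.primes`, `k = bl a`: `D_a q = q.ord g'_a + H_k q ≥ 0` (`g'_a` is a combination of `g_b`, `bl b = k`, with
`q.ord g_b + H_k q ≥ 0` by div_self and div_other), finite support (hFSP, hCBD), and for every `l`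
`∑ᶠ deg q l * D_a q = [l = k]` (hCBD (1), (3), (4)); as `lam ≥ 1` (deg_pos) there is exactly one `q = pr'_a ∈ V.primes`
with `D_a q ≠ 0`, `D_a = 1` there, and `deg pr'_a l = [l = k]`.  Injective: let `pr'_a = pr'_b`, `a ≠ b`; then
`bl a = bl b` and `g'_a / g'_b` is in `Γ(0)`, so it is a constant `c` by hGAM (`m = 0`: `α = 0` because every `a` has
`(α a : ℤ) ≤ m (bl a) = 0`, the monomial is `1`); so `sec (T a - c T b) = 0`, `T a = c T b` by hSEC, contradicting
`IsUnit T.det`.  omega: for `q ∈ V.primes`, adding `∑_a H_(bl a) q` on both sides of hLIN: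
`ordOmega L'' q + ∑_a D_a q = ordOmega L q + ∑_a (q.ord g_a + H_(bl a) q)` and the right side is `0` in both cases
(`q = pr b` for exactly one `b`, or none), so `ordOmega L'' q = - #{a : q = pr'_a}`.  ratio: from `L''.z j`. -/
def StLFR : Prop := ∀ (K : Type) [Field K] [Algebra ℂ K] (V : NormalProj K) (r : ℕ)
  (B : ClassBasis V r) (n : ℕ) (L : LogCoord K n) (Fr : Frame B L)
  (T : Matrix (Fin (n + r)) (Fin (n + r)) ℂ), IsUnit T.det → Graded Fr.bl T →
  ∃ (L'' : LogCoord K n) (Fr' : Frame B L''), Fr'.bl = Fr.bl ∧ (∀ a, Fr'.g a = Fr.sec (T a)) ∧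
    ∀ v, ordOmega L'' v + ∑ a, v.ord (Fr'.g a) = ordOmega L v + ∑ a, v.ord (Fr.g a)

/-- MODULE NRM.  A nef b-divisor of degree one is a section of one `H_k` in codimension one.
Proof.  Let `A` be the witness of nefness.  `m = 1`: `N (M + A.div) = F.div`: `M` has finite support on `V.primes`
(`F.div q ≠ 0` implies `q.ord f ≠ 0` for a generator; hFSP).  `δ_l = ∑ᶠ deg q l * M q`,
`α_l = ∑ᶠ deg q l * A.div q`.  For all `m ≥ 1` and a generator `f` of `F` (`N (m M + A.div) = F.div`):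
`0 ≤ ∑ᶠ deg q l (q.ord f + F.div q) = N (m δ_l + α_l)` by hCBD (1); so `δ_l ≥ 0`.  `∑_l δ_l = 1`, so `δ_k = 1` for one
`k` and the others are `0`.  `φ_q` from B.sec, `h0 = ∏_q φ_q^(M q)` (finite): for `q' ∈ V.primes`
`q'.ord h0 = M q' - ∑_l δ_l H_l q' = M q' - H_k q'`.  `h = h0 / g_(β k)` and div_self, div_other for `β k`. -/
def StNRM : Prop := ∀ (K : Type) [Field K] [Algebra ℂ K] (V : NormalProj K) (r : ℕ)
  (B : ClassBasis V r) (n : ℕ) (L : LogCoord K n) (Fr : Frame B L) (β : Fin r → Fin (n + r)),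
  (∀ k, Fr.bl (β k) = k) → ∀ M : DivVal K → ℤ, IsNefCartier M →
  ∑ᶠ q ∈ V.primes, (∑ k, (B.deg q k : ℤ)) * M q = 1 →
  ∃ (k : Fin r) (h : K), h ≠ 0 ∧ (∀ q ∈ V.primes, q = Fr.pr (β k) → M q = q.ord h + 1) ∧
    ∀ q ∈ V.primes, q ≠ Fr.pr (β k) → M q = q.ord h

/-- MODULE POL.  Nef b-divisors of multidegree `e_k` on a product of projective spaces.
Proof.  Let `A` be the witness of nefness.  For the finitely many irreducible `P` (up to association) dividing a
numerator or denominator of a generator let `v_P` be the `P`-adic valuation (hPad) and `a = ∏ P^(A.div v_P)`: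
multiplying the generators of `A` by `a` we may assume `A.div v_P = 0` for all irreducible `P`, so the generators are
polynomials; multiplying the generators of `F` by `a^N` the relation `N (m M + A.div) = F.div` stays, and
`F.div v_P = 0` since `M v_P = 0`, so the generators of `F` are polynomials.  So `M` is `NormNef` (polynomials are
Laurent).  Let `v_∞` have `ord = monOrd (-1)` (hMon; hMon also gives `v_l` with `ord = monOrd (- 1_(grp = l))`),
`α_l = A.div v_l`, `α = A.div v_∞`.  For a monomial `μ` of a generator of `F`: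
`∑_(grp j = l) μ_j ≤ F.div v_l = N (m [l = k] + α_l)` for all `l`, so `F.div v_∞ ≤ N (m + ∑ α_l)`, `m M v_∞ + α ≤ m + ∑ α_l`
for all `m`, and `M v_∞ ≤ 1`.  Some monomial of some generator has `∑_(grp j = k) μ_j = N (m + α_k)`, so
`F.div v_∞ ≥ N (m + α_k)` and `M v_∞ ≥ 1`.  (Orders: `v.ord = monOrd w` has `v.ord (algebraMap p) = monO w p`.)
The `v` with `ord = monOrd (Pi.single j 1)` has `ord = padOrd (X j)`, so `M v = 0`.  hPoly gives `PolyNef M`. -/
def StPOL : Prop := ∀ (n r : ℕ) (grp : Fin n → Fin r) (k : Fin r)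
  (M : DivVal (Pool.Agent.Helper53.CX.Kn n) → ℤ), 0 < n → Function.Surjective grp →
  IsNefCartier M →
  (∀ (P : Pool.Agent.Helper53.CX.Pn n), Irreducible P → ∀ v : DivVal (Pool.Agent.Helper53.CX.Kn n),
    v.ord = Pool.Agent.Helper53.CX.padOrd P → M v = 0) →
  (∀ (l : Fin r) (v : DivVal (Pool.Agent.Helper53.CX.Kn n)),
    v.ord = Pool.Agent.Helper53.CX.monOrd (fun j => if grp j = l then (-1 : ℤ) else 0) →
    M v = if l = k then 1 else 0) →
  Pool.Agent.Helper53.CX.PolyNef M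

/-- MODULE TRO.  Transport of divisorial valuations and of the top form by an isomorphism.
Proof.  (1), (2) `v'.ord f = v.ord (σ f)`, `v.ord f = v'.ord (σ.symm f)`: `DivVal` axioms are transported (copy of
`pull` in Pool/Agent/Helper53/CX/AuxD2.lean).  For the form: `f ↦ σ (theta j (σ.symm f))` is a derivation of `K` with
value `[i = j] z_i` at `z_i`, so it is `L.θ j` by hUNQ; `σ (jac f) = jac L (σ f)`, so `IsJacMin v' e ↔ IsJacMin L v e`,
and the chosen minima agree (uniqueness); if no minimum exists both are `0`.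
(3) nef: the witness `A` is transported by mapping the generators by `σ.symm`. -/
def StTRO : Prop := ∀ (K : Type) [Field K] [Algebra ℂ K] (n : ℕ) (L : LogCoord K n)
  (σ : Pool.Agent.Helper53.CX.Kn n ≃ₐ[ℂ] K), (∀ j, σ (Pool.Agent.Helper53.CX.x j) = L.z j) →
  (∀ v : DivVal K, ∃ v' : DivVal (Pool.Agent.Helper53.CX.Kn n), (∀ f, v'.ord f = v.ord (σ f)) ∧
    Pool.Agent.Helper53.CX.ordOmega v' = ordOmega L v) ∧
  (∀ v' : DivVal (Pool.Agent.Helper53.CX.Kn n), ∃ v : DivVal K, ∀ f, v'.ord f = v.ord (σ f)) ∧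
  ∀ M : DivVal K → ℤ, IsNefCartier M → ∃ M' : DivVal (Pool.Agent.Helper53.CX.Kn n) → ℤ,
    IsNefCartier M' ∧ ∀ v v', (∀ f, v'.ord f = v.ord (σ f)) → M' v' = M v

/-- MODULE PJK.  A nef b-divisor of degree one is a linear projection.
Proof.  Choose `β` (surj), a chart `L', e` (hLPX), `σ` (hSIG); `k, h` from hNRM.  `M1` from hTRO (for `L'`), and
`M' v' = M1 v' - v'.ord (σ.symm h)`; it is nef (multiply the generators of the witness for `m` by `(σ.symm h)^(-N m)`).
`grp j = bl (e j)`; it is surjective: for `l` hBAS for `q = pr (β l)` gives `a ≠ β l` with `bl a = l`, `a = e j`.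
`v'` with `ord = padOrd P`, `P` irreducible: by hPRF (2) it is `q ∘ σ` for a `q ∈ V.primes`, `q ≠ pr (β l)` for all `l`,
so `M' v' = M q - q.ord h = 0`.  `v'` with `ord = monOrd (- 1_(grp = l))`: by hPRI it is `pr (β l) ∘ σ`, so
`M' v' = [l = k]` (`β`, `pr` injective).  hPOL: `PolyNef M'`; hPrj: `M' v' = - vmin v' W'`, `W' ≠ ⊥`.
Block: let `l ≠ k` and `v'` as above (exists, by hTRO from `pr (β l)`): `vmin v' W' = 0`; for `c ∈ W'`, `c ≠ 0`:
`v'(lfv c) = monO (lfv c as a polynomial) = -1` if `c_(j+1) ≠ 0` for some `j` with `grp j = l`; so these `c_(j+1)` are `0`.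
`W` = the set of all `x ∈ Blk k` with `(x_(β k), x_(e j) (grp j = k), 0) ∈ W'` (the isomorphism of `Blk k` with the
vectors supported in `0` and the block `k`): `sec x = g_(β k) * σ (lfv c)` for corresponding `x`, `c`, so
`smin v W = v.ord g_(β k) + vmin v' W'` and `M v = v.ord h + v.ord g_(β k) - smin v W`: take `h' = h g_(β k)`.
Last claim: for `q ∈ V.primes`: `M q = q.ord h + [q = pr (β k)] = q.ord h + q.ord g_(β k) + H_k q`. -/
def StPJK : Prop := ∀ (K : Type) [Field K] [Algebra ℂ K] (V : NormalProj K) (r : ℕ)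
  (B : ClassBasis V r) (n : ℕ) (L : LogCoord K n) (Fr : Frame B L), 0 < n →
  ∀ M : DivVal K → ℤ, IsNefCartier M → ∑ᶠ q ∈ V.primes, (∑ k, (B.deg q k : ℤ)) * M q = 1 →
  ∃ (k : Fin r) (W : Submodule ℂ (Fin (n + r) → ℂ)) (h : K), W ≠ ⊥ ∧ W ≤ Blk Fr.bl k ∧ h ≠ 0 ∧
    (∀ v, M v = v.ord h - Fr.smin v W) ∧ ∀ q ∈ V.primes, Fr.smin q W = - (B.H k).div q

/-- MODULE FAM.  The pair as a weighted family of linear spaces.
Proof.  `I` = the `q ∈ F` with `B q > 0` and the `i` with `b_i > 0`.  For such a `q`: `deg q` is a unit vector `e_k`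
(`∑ deg q = 1`); `φ_q` from B.sec is in `Γ(e_k)`, so by hGAM a combination of monomials with `∑_(bl a = l) α a = [l = k]`,
i.e. of the `g_a` with `bl a = k`: `φ_q = sec x_q`, `x_q ∈ Blk k`, `x_q ≠ 0`; `W = span x_q`, weight `B q`,
`smin v W = v.ord φ_q` (hSEC, constants have order 0).  For `i`: `k_i, W_i, h_i` from hPJK, weight `b_i`.
`G = ∑_q B q [φ_q] - ∑_a [g_a] - g + ∑ b_i [h_i]` (an element of `K →₀ ℝ`).  For all `v`, inserting
`B v = rdiv g v - ordOmega v - ∑ b_i (v.ord h_i - smin v W_i)`: the difference of the two sides of the last claim is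
`rdiv G v` (`Ad v - 1 + B v = ordOmega v + ∑ v.ord g_a + B v`).  For `q' ∈ V.primes`: `q'.ord φ_q = [q = q'] - H_(k_q) q'`,
`∑_a q'.ord g_a = [q' = some pr a] - ∑_a H_(bl a) q'`, `ordOmega q' = - [q' = some pr a]`, and
`rdiv g q' = B q' + ordOmega q' + ∑ b_i (q'.ord h_i + H_(k_i) q')` (last part of hPJK), so (`B q' = 0` for
`q' ∉ F`) `rdiv G q' = ∑_k C_k H_k q'`, `C_k = #{a : bl a = k} - ∑_(q : k_q = k) B q - ∑_(i : k_i = k) b_i`.  The real
version of hCBD (1) (`∑ᶠ deg q l * rdiv G q = 0` by linearity, finite supports hFSP) and hCBD (3), (4): `C_l = 0`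
for all `l`.  This is the field `sum`, and `rdiv G = 0` on `V.primes`, so everywhere by hCST. -/
def StFAM : Prop := ∀ (K : Type) [Field K] [Algebra ℂ K] (V : NormalProj K) (r : ℕ)
  (B : ClassBasis V r) (n : ℕ) (L : LogCoord K n) (Fr : Frame B L), 0 < n →
  ∀ (ι : Type) [Fintype ι] (S : Set (DivVal K)) (p : PairData K ι), IsGenLCY L S p →
  (∀ q ∈ V.primes, q ∈ S ∨ p.B L q = 1) →
  ∀ F : Finset (DivVal K), (F : Set (DivVal K)) ⊆ V.primes →
  (∀ q ∈ V.primes, q ∉ F → p.B L q = 0) →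
  (∀ q ∈ V.primes, 0 < p.B L q → ∑ k, B.deg q k = 1) →
  (∀ i, 0 < p.b i → ∑ᶠ q ∈ V.primes, (∑ k, (B.deg q k : ℤ)) * p.M i q = 1) →
  ∃ Φ : Fam Fr.bl, ∀ v, ∑ i, Φ.c i * (Fr.smin v (Φ.W i) : ℝ) = (Fr.Ad v : ℝ) - 1 + p.B L v

/-- MODULE MVF.  Monomial valuations of a Frame.
Proof.  Choose `β` with `bl (β l) = l` and `β k ∉ J` (surj), a chart `L', e` (hLPX), `σ` (hSIG).  `w_j = 1` if `e j ∈ J`
and `0` otherwise; some `w_j = 1` (`J` nonempty, `a ∈ J` is not `β k`, and `β (bl a) = β k`, so `a = e j`), so there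
is `v'` with `v'.ord = monOrd w` (hMon / hTorV), `ordOmega v' = -1` (hTorOm); `v` from hTRO (2), and
`ordOmega L v = ordOmega L' v = -1` (hTRO (1) for `v`: its `v'` has the same `ord`, so it is equal).
`s l = v.ord g_(β l)`.  `v.ord (g_(e j) / g_(β l)) = v'(x_j) = w_j`.  For `x ∈ Blk l`: `sec x = g_(β l) * σ (p)`,
`p = x_(β l) + ∑_(bl (e j) = l) x_(e j) X_j` and `v'(p) = monO w p` = minimum of the weights of the monomials that
occur. -/
def StMVF : Prop := ∀ (K : Type) [Field K] [Algebra ℂ K] (V : NormalProj K) (r : ℕ)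
  (B : ClassBasis V r) (n : ℕ) (L : LogCoord K n) (Fr : Frame B L) (k : Fin r)
  (J : Finset (Fin (n + r))), (∀ a ∈ J, Fr.bl a = k) → J.Nonempty → (∃ a, Fr.bl a = k ∧ a ∉ J) →
  ∃ (v : DivVal K) (s : Fin r → ℤ), ordOmega L v = -1 ∧
    (∀ a, v.ord (Fr.g a) = s (Fr.bl a) + if a ∈ J then 1 else 0) ∧
    ∀ l, ∀ x ∈ Blk Fr.bl l, x ≠ 0 →
      ((∀ a, x a ≠ 0 → a ∈ J) → v.ord (Fr.sec x) = s l + 1) ∧
      ((∃ a, x a ≠ 0 ∧ a ∉ J) → v.ord (Fr.sec x) = s l)

/-- MODULE STA.  Log canonicity implies semistability.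
Proof.  Step 1: `U ≤ Blk k`.  `U = ⊥`: clear (`W i ≠ ⊥`).  `U = Blk k`: the `W i ≤ Blk k` are those with
`bI i = k` (`W i ≤ Blk (bI i)`, `W i ≠ ⊥`, and different blocks meet in `0`), so `w U = #{a : bl a = k} = dim` by
`Φ.sum`.  Otherwise there is an invertible graded `T` and `J` with `bl a = k` for `a ∈ J`, such that `T a`, `a ∈ J`, is a
basis of `U`: complete a basis of `U` to a basis of `Blk k`, indexed by `{a : bl a = k}`, and `T a` = unit vector
otherwise; `J` is nonempty and not the whole block.  hLFR: `L''`, `Fr'`; hMVF for `Fr'`: `v, s`.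
`Ad v = ordOmega L v + 1 + ∑ v.ord g_a = ordOmega L'' v + 1 + ∑ v.ord g'_a = ∑_a (s (bl a) + [a ∈ J])
= |J| + ∑_l s_l #{a : bl a = l}`.  For `x ∈ Blk l`, `x = ∑ y_a T a` (`y = x T⁻¹`, supported in the block `l`),
`Fr.sec x = Fr'.sec y`; so `smin v (W i) = s_(bI i) + 1` if `W i ≤ U` and `s_(bI i)` otherwise (hSEC; `x ∈ U` iff `y` is
supported in `J`).  Insert in the hypothesis: `∑_i c_i s_(bI i) + w U ≤ |J| + ∑_l s_l #{..}`, and the first sum is
`∑_l s_l #{..}` by `Φ.sum`; `|J| = dim U`.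
Step 2: `w U = ∑_k w (U ⊓ Blk k)` restricted to `bI i = k`... precisely: `W i ≤ U` iff `W i ≤ U ⊓ Blk (bI i)`, so
`w U ≤ ∑_k w (U ⊓ Blk k) ≤ ∑_k dim (U ⊓ Blk k) ≤ dim U` (the blocks are independent). -/
def StSTA : Prop := ∀ (K : Type) [Field K] [Algebra ℂ K] (V : NormalProj K) (r : ℕ)
  (B : ClassBasis V r) (n : ℕ) (L : LogCoord K n) (Fr : Frame B L) (Φ : Fam Fr.bl),
  (∀ v, ∑ i, Φ.c i * (Fr.smin v (Φ.W i) : ℝ) ≤ (Fr.Ad v : ℝ)) → Φ.Stable

/-- MODULE CMB (pure linear algebra).  A graded common basis of the tight subspaces.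
Proof.  `∑ c_i = N` (sum of `Φ.sum` over `k`).  `N = 0`: trivial.  Otherwise `N = m + 1`; the proven theorem
`Pool.Agent.Helper53.CX.hComb : StComb` (file Pool/Agent/Helper53/CX/M_Comb.lean), transported by `Fin N ≃ Fin (m+1)`, gives an
invertible `T0` with `Adapted`.  Every `Blk k` is tight (the `W i ≤ Blk k` are those with `bI i = k`; `dim (Blk k) =
#{a : bl a = k}`), so `Blk k = span (T0 '' J_k)`, `|J_k| = dim = #{a : bl a = k}` (rows of an invertible matrix are
independent), and the `J_k` are disjoint (`Blk k ⊓ Blk l = ⊥`).  So there is a permutation `π` of `Fin N` with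
`π a ∈ J_(bl a)`; `T a = T0 (π a)`: graded, invertible, and `span (T0 '' J) = span (T '' (π⁻¹ J))`. -/
def StCMB : Prop := ∀ (N r : ℕ) (bl : Fin N → Fin r) (Φ : Fam bl), Φ.Stable →
  ∃ T : Matrix (Fin N) (Fin N) ℂ, IsUnit T.det ∧ Graded bl T ∧ Φ.Adapted T

/-- MODULE GLA (pure linear algebra).  Equality in the stability estimate.
Proof.  As in `hGlc` (Pool/Agent/Helper53/CX/M_Glc.lean: reuse its lemmas Glc_chain, Glc_count).  For `x ∈ Fin N → ℂ` let
`x_l` be its component in the block `l`.  `U_k = {x : for all l, x_l = 0 or k ≤ val x_l}` is a subspace and the sum of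
the `U_k ⊓ Blk l`.  `k0 = min_a val (e_a)` (`N ≥ 1`; `N = 0` is trivial): `val x ≥ k0` for all nonzero block vectors;
`k1 ≥ k0` with `mW i ≤ k1` for all `i`.  `W i ≤ U_k` iff `k ≤ mW i`.  So with `∑ c_i = N`:
`A = ∑ c_i mW_i = N k0 + ∑_(k0 < k ≤ k1) w (U_k) ≤ N k0 + ∑_k dim U_k`.  There is an invertible graded `T'`
adapted to the filtration: in every block choose a basis adapted to the chain `U_k ⊓ Blk l` (Glc_chain), indexed by
`{a : bl a = l}`; so `dim U_k = ∑_l dim (U_k ⊓ Blk l) ≤ #{a : T' a ∈ U_k}`, and (Glc_count)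
`N k0 + ∑_k dim U_k ≤ ∑_a val (T' a) ≤ A`.  So `w (U_k) = dim U_k` for `k0 < k ≤ k1`, `U_k = span (T '' J_k)`,
`|J_k| = dim U_k`, and `∑_a val (T a) ≥ N k0 + ∑_k |J_k| = A` (Glc_count; `T a ∈ U_k` gives `val (T a) ≥ k`), while
`∑_a val (T a) ≤ A` by hypothesis. -/
def StGLA : Prop := ∀ (N r : ℕ) (bl : Fin N → Fin r) (Φ : Fam bl) (val : (Fin N → ℂ) → ℤ)
  (mW : Φ.I → ℤ) (A : ℤ) (T : Matrix (Fin N) (Fin N) ℂ),
  (∀ k, ∀ x ∈ Blk bl k, x ≠ 0 → ∀ c : ℂ, c ≠ 0 → val (c • x) = val x) →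
  (∀ k, ∀ x ∈ Blk bl k, ∀ y ∈ Blk bl k, x ≠ 0 → y ≠ 0 → x + y ≠ 0 →
    min (val x) (val y) ≤ val (x + y)) →
  (∀ i, (∀ x ∈ Φ.W i, x ≠ 0 → mW i ≤ val x) ∧ ∃ x ∈ Φ.W i, x ≠ 0 ∧ val x = mW i) →
  Φ.Stable → IsUnit T.det → Graded bl T → Φ.Adapted T →
  (∀ T' : Matrix (Fin N) (Fin N) ℂ, IsUnit T'.det → Graded bl T' → ∑ a, val (T' a) ≤ A) →
  ∑ i, Φ.c i * (mW i : ℝ) = (A : ℝ) → ∑ a, val (T a) = A

/-- MODULE GLB.  The glc places satisfy the equality.
Proof.  hGLA for `val x = v.ord (sec x)`, `mW i = smin v (W i)`, `A = Ad v`: homogeneity and the ultrametric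
inequality from hSEC (nonvanishing) and linearity of `sec`; for every graded invertible `T'` hLFR and hJLB give
`∑_a v.ord (sec (T' a)) = Ad v - (ordOmega L'' v + 1) ≤ Ad v`. -/
def StGLB : Prop := ∀ (K : Type) [Field K] [Algebra ℂ K] (V : NormalProj K) (r : ℕ)
  (B : ClassBasis V r) (n : ℕ) (L : LogCoord K n) (Fr : Frame B L) (Φ : Fam Fr.bl)
  (T : Matrix (Fin (n + r)) (Fin (n + r)) ℂ), Φ.Stable → IsUnit T.det → Graded Fr.bl T →
  Φ.Adapted T → ∀ v : DivVal K, ∑ i, Φ.c i * (Fr.smin v (Φ.W i) : ℝ) = (Fr.Ad v : ℝ) →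
  ∑ a, v.ord (Fr.sec (T a)) = Fr.Ad v

/-- MODULE MNO.  A valuation at which the top form has a pole is monomial.
Proof.  `v'` from hTRO (1): `CX.ordOmega v' = -1`, so `v'.ord = monOrd (fun j => v'.ord (x j))` by hLC, and it is `IsToric`
by hBri; `aeval L.z p = σ (algebraMap p)` (`σ x_j = z_j`), so this is `IsToricIn L.z v` with the weights
`v.ord (L.z j)`. -/
def StMNO : Prop := ∀ (K : Type) [Field K] [Algebra ℂ K] (n : ℕ) (L : LogCoord K n)
  (σ : Pool.Agent.Helper53.CX.Kn n ≃ₐ[ℂ] K), (∀ j, σ (Pool.Agent.Helper53.CX.x j) = L.z j) →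
  ∀ v : DivVal K, ordOmega L v = -1 → IsToricIn L.z v (fun j => v.ord (L.z j))

/-- MODULE TPR.  The prime divisors of the torus.
Proof.  Identify `K` with `Kn n` by `σ` (hTRO); `R = torusRing z` = Laurent polynomials (`= {f : f = p x^u}`).
(1) Suppose `IsPrimeOf R v`.  `v` is nonnegative on `R`, so `v(x_j) = 0`, and `v ≥ 0` on polynomials.  `v` is not
`0` (exists_one) and every `f ∈ K` is a quotient of polynomials, so some polynomial and hence (factorisation) some
irreducible `P` has `v(P) > 0`; `P` is not associated to `X_j`: `TorusPrime P`.  Let `p` be a polynomial, `¬ P ∣ p`; claim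
`v(p) = 0`.  Otherwise `v(p) > 0`.  If `v(p) ≥ v(P)`: `p/P = a/b`, `a, b ∈ R`, `v(b) = 0`; we may assume that `a, b` are
polynomials (multiply by a monomial, of order `0`): `b p = a P`, so `P ∣ b` and `v(b) ≥ v(P) > 0`, contradiction.  If
`v(P) ≥ v(p)`: `P/p = a/b`: `b P = a p`, so `P ∣ a`, `a = P a'`, `b = a' p`, `v(b) ≥ v(p) > 0`, contradiction.  So
`v = v(P) * padOrd P` on polynomials, hence on `Kn n`, and `v(P) = 1` by exists_one.
(2) Let `v ∘ σ = padOrd P`, `TorusPrime P`: nonnegative on `R` (`padOrd P (x_j) = 0`), and `f` with `v(f) ≥ 0` is `a/b`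
with coprime polynomials (or remove the common factors `P`), so `P ∤ b` and `v(b) = 0`. -/
def StTPR : Prop := ∀ (K : Type) [Field K] [Algebra ℂ K] (n : ℕ) (L : LogCoord K n)
  (σ : Pool.Agent.Helper53.CX.Kn n ≃ₐ[ℂ] K), (∀ j, σ (Pool.Agent.Helper53.CX.x j) = L.z j) →
  ∀ v : DivVal K, IsPrimeOf (torusRing L.z) v ↔
    ∃ P : Pool.Agent.Helper53.CX.Pn n, Pool.Agent.Helper53.CX.TorusPrime P ∧
      ∀ f, v.ord (σ f) = Pool.Agent.Helper53.CX.padOrd P f

/-- MODULE FTR.  The torus.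
Proof.  Choose `β` (surj), a chart `L', e` (hLPX), `σ` (hSIG).  `y = L'.z`; indep: `L'.basis.1`; full: `σ` is
surjective and `Kn n` is generated by the `x_j`.  `ordOmega L' = ordOmega L`.
invariant: `v ∈ S`.  If `B v = 1` then `ordOmega L v = -1` (hypothesis), so toric by hMNO.  Otherwise
`v ∈ V.primes`.  If `v = pr a` for some `a` then `ordOmega L v = -1` (omega_pr): toric by hMNO.  Otherwise hPRF (1)
gives an irreducible `P` with `v ∘ σ = padOrd P`; `v.ord (z_j) = 0` (div_other twice), so `P` is not associated to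
`X_j` (`padOrd P (X_j)` would be `1`): `TorusPrime P`, and hTPR.
torus: `IsPrimeOf (torusRing y) v`: hTPR gives `P`, hPRF (2) a `q ∈ V.primes` with `q ∘ σ = padOrd P = v ∘ σ`, so
`q = v` (a `DivVal` is determined by `ord`).  So `v ∈ S` or `B v = 1`.  In the second case hMNO: `v` is monomial in `y`
with weights `v.ord (y_j) = padOrd P (X_j) = 0`, so `v.ord (σ P) = 0`, but `padOrd P P = 1`. -/
def StFTR : Prop := ∀ (K : Type) [Field K] [Algebra ℂ K] (V : NormalProj K) (r : ℕ)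
  (B : ClassBasis V r) (n : ℕ) (L : LogCoord K n) (_ : Frame B L)
  (S : Set (DivVal K)) (b : DivVal K → ℝ), (∀ v ∈ S, v ∈ V.primes ∨ b v = 1) →
  (∀ q ∈ V.primes, q ∈ S ∨ b q = 1) → (∀ v, b v = 1 → ordOmega L v = -1) → IsToricVariety n S

/-- MODULE FI3.  The theorem.
Proof.  hEQ1 gives `F`; hEQ2 (with `S = V.primes`) gives the Frame `Fr`, hFAM the family `Φ` with
`∑ c smin = Ad v - 1 + B v ≤ Ad v` (glc): stable by hSTA; `T` from hCMB; hLFR: `L''`, `Fr'`.  If `B v = 1` then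
`∑ c smin = Ad v`, so `∑_a v.ord (sec (T a)) = Ad v` by hGLB and `ordOmega L'' v = -1` by hLFR.  hFTR for `Fr'`,
`b v = p.B L v`. -/
def StFI3 : Prop := ∀ (K : Type) [Field K] [Algebra ℂ K] (n : ℕ) (L : LogCoord K n)
  (V0 V : NormalProj K) (r : ℕ) (B : ClassBasis V0 r) (SC : SectionCoord B L), 0 < n →
  (∀ k, (SC.s k).Nonempty) →
  ∀ (ι : Type) [Fintype ι] (p : PairData K ι), IsGenLCY L V.primes p →
  (∀ q ∈ V0.primes, q ∈ V.primes ∨ p.B L q = 1) →
  ∀ (C : Finset (DivVal K)), (C : Set (DivVal K)) ⊆ V.primes → ∀ ρ : ℕ,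
  Module.rank ℝ (Cl V.primes) = (ρ : Cardinal) →
  (n : ℝ) + ρ ≤ ∑ v ∈ C, p.B L v + ∑ i, p.b i → IsToricVariety n V.primes

end Pool.Agent.Helper98.GX
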